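import Pool.Agent.W7h60.LP.Fin

set_option autoImplicit false
set_option linter.unusedSectionVars false

open scoped InnerProductSpace InnerProduct ENNReal

/-! The dimension of harmonic chains and leading parts of complexes. -/

namespace Pool.Agent.W7h60.OM

open Pool.Agent.W649.ZL Pool.Agent.W7h60.LP

universe u v

section abs

variable {G : Type u} {K0 K1 K2 : Type v} [Group G] [Fintype K0] [Fintype K1] [Fintype K2]

/-- the harmonic elements in the middle -/
noncomputable def harm (T1 : EE G K1 →L[ℂ] EE G K0) (T2 : EE G K2 →L[ℂ] EE G K1) :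
    Submodule ℂ (EE G K1) :=
  LinearMap.ker (T1 : EE G K1 →ₗ[ℂ] EE G K0) ⊓
    (LinearMap.range (T2 : EE G K2 →ₗ[ℂ] EE G K1))ᗮ

theorem harm_closed (T1 : EE G K1 →L[ℂ] EE G K0) (T2 : EE G K2 →L[ℂ] EE G K1) :
    IsClosed (harm T1 T2 : Set (EE G K1)) := by
  unfold harm
  rw [Submodule.coe_inf]
  exact (ContinuousLinearMap.isClosed_ker T1).inter (Submodule.isClosed_orthogonal _)

theorem orth_inv {I : Type v} {P : Submodule ℂ (EE G I)} (hP : W649.ZL.Inv P) :
    W649.ZL.Inv Pᗮ := by
  intro k f hf
  rw [Submodule.mem_orthogonal] at hf ⊢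
  intro y hy
  rw [← inner_conj_symm, inner_tr_left, inner_conj_symm]
  exact hf _ (hP k⁻¹ y hy)

theorem harm_inv (T1 : EE G K1 →L[ℂ] EE G K0) (T2 : EE G K2 →L[ℂ] EE G K1) (hT1 : Eqv T1)
    (hT2 : Eqv T2) : W649.ZL.Inv (harm T1 T2) :=
  inv_inf (inv_ker T1 hT1) (orth_inv (range_inv T2 hT2))

theorem vd_harm (T1 : EE G K1 →L[ℂ] EE G K0) (T2 : EE G K2 →L[ℂ] EE G K1) (hT2 : Eqv T2)
    (h0 : ∀ f, T1 (T2 f) = 0) :
    vd (harm T1 T2) = vd (LinearMap.ker (T1 : EE G K1 →ₗ[ℂ] EE G K0))
      + vd (LinearMap.ker (T2 : EE G K2 →ₗ[ℂ] EE G K1)) - Fintype.card K2 := by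
  have h1 := vd_ker_add_range T2 hT2
  set R := LinearMap.range (T2 : EE G K2 →ₗ[ℂ] EE G K1) with hR
  have h2 : R.topologicalClosure ≤ LinearMap.ker (T1 : EE G K1 →ₗ[ℂ] EE G K0) := by
    apply Submodule.topologicalClosure_minimal _ _ (ContinuousLinearMap.isClosed_ker T1)
    rintro _ ⟨f, rfl⟩
    exact h0 f
  have h3 := vd_sub (Submodule.isClosed_topologicalClosure R)
    (ContinuousLinearMap.isClosed_ker T1) h2
  rw [vd_closure, Submodule.orthogonal_closure] at h3
  change vd (LinearMap.ker (T1 : EE G K1 →ₗ[ℂ] EE G K0) ⊓ Rᗮ) = _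
  rw [h3]
  linarith

end abs

section fac

/-- a matrix has a factorisation of an identity matrix of the size of its rank -/
theorem exists_factor' {K L : Type*} [Fintype K] [Fintype L] (M : Matrix K L ℂ) :
    ∃ (X : Fin M.rank → K → ℂ) (Y : L → Fin M.rank → ℂ),
      ∀ a b, ∑ k, ∑ l, X a k * M k l * Y l b = if a = b then 1 else 0 := by
  classical
  have e1 := Fintype.equivFin K
  have e2 := Fintype.equivFin L
  have hr : (Matrix.reindex e1 e2 M).rank = M.rank := Matrix.rank_reindex e1 e2 M
  obtain ⟨X, Y, hXY⟩ := exists_factor (Matrix.reindex e1 e2 M)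
  refine ⟨fun a k => X (Fin.cast hr.symm a) (e1 k), fun l a => Y (e2 l) (Fin.cast hr.symm a), ?_⟩
  intro a b
  have h1 : ∑ l, (∑ k, X (Fin.cast hr.symm a) k * (Matrix.reindex e1 e2 M) k l) *
      Y l (Fin.cast hr.symm b) = if a = b then 1 else 0 := by
    have h2 := congrFun (congrFun hXY (Fin.cast hr.symm a)) (Fin.cast hr.symm b)
    rw [Matrix.mul_apply, Matrix.one_apply] at h2
    have h3 : (Fin.cast hr.symm a = Fin.cast hr.symm b) ↔ a = b :=
      (Fin.cast_injective hr.symm).eq_iff
    rw [if_congr h3 rfl rfl] at h2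
    rw [← h2]
    refine Finset.sum_congr rfl fun l _ => ?_
    rw [Matrix.mul_apply]
  rw [← h1, ← Equiv.sum_comp e2, Finset.sum_comm]
  refine Finset.sum_congr rfl fun l _ => ?_
  rw [← Equiv.sum_comp e1, Finset.sum_mul]
  refine Finset.sum_congr rfl fun k _ => ?_
  have h4 : (Matrix.reindex e1 e2 M) (e1 k) (e2 l) = M k l := by
    rw [Matrix.reindex_apply, Matrix.submatrix_apply, Equiv.symm_apply_apply,
      Equiv.symm_apply_apply]
  rw [h4]

/-- **Constant block matrices.** Let `N` be a constant matrix, with rows and columns in blocks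
indexed by `B`, block diagonal with blocks containing matrices `M b`. -/
theorem ker_block {G : Type u} {B I J : Type v} [Group G] [Fintype B] [Fintype I] [Fintype J]
    [DecidableEq B] [DecidableEq I] [DecidableEq J] (α : I → B) (β : J → B) (N : I → J → ℂ)
    (hN : ∀ i j, α i ≠ β j → N i j = 0) (r : B → ℕ)
    (hr : ∀ b, ∃ (X : Fin (r b) → I → ℂ) (Y : J → Fin (r b) → ℂ),
      (∀ a i, α i ≠ b → X a i = 0) ∧ (∀ j a, β j ≠ b → Y j a = 0) ∧
      ∀ a a', ∑ i, ∑ j, X a i * N i j * Y j a' = if a = a' then 1 else 0) :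
    vd (LinearMap.ker (op (cm (G := G) N) : EE G I →ₗ[ℂ] EE G J)) ≤
      Fintype.card I - ∑ b, r b := by
  choose X Y hX hY hXY using hr
  have key := ker_le_of_factor (op (cm (G := G) N)) (op_eqv _)
    (op (cm (G := G) fun (k : Σ b, Fin (r b)) i => X k.1 k.2 i))
    (op (cm (G := G) fun j (k : Σ b, Fin (r b)) => Y k.1 j k.2)) (op_eqv _) (by
      intro F
      rw [op_cm_comp, op_cm_comp]
      have e : (fun (k k' : Σ b, Fin (r b)) => ∑ i, X k.1 k.2 i * ∑ j, N i j * Y k'.1 j k'.2)
          = fun k k' => (1 : Matrix (Σ b, Fin (r b)) (Σ b, Fin (r b)) ℂ) k k' := by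
        funext k k'
        obtain ⟨b, a⟩ := k
        obtain ⟨b', a'⟩ := k'
        rw [Matrix.one_apply]
        by_cases hb : b = b'
        · subst hb
          have h1 : (∑ i, X b a i * ∑ j, N i j * Y b j a') =
              ∑ i, ∑ j, X b a i * N i j * Y b j a' := by
            refine Finset.sum_congr rfl fun i _ => ?_
            rw [Finset.mul_sum]
            refine Finset.sum_congr rfl fun j _ => ?_
            ring
          change (∑ i, X b a i * ∑ j, N i j * Y b j a') = _
          rw [h1, hXY]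
          by_cases ha : a = a'
          · subst ha
            rw [if_pos rfl, if_pos rfl]
          · rw [if_neg ha, if_neg]
            intro h
            apply ha
            simpa using h
        · rw [if_neg (fun h => hb (congrArg Sigma.fst h))]
          refine Finset.sum_eq_zero fun i _ => ?_
          change X b a i * (∑ j, N i j * Y b' j a') = 0
          by_cases hi : α i = b
          · rw [Finset.sum_eq_zero, mul_zero]
            intro j _
            by_cases hj : β j = b'
            · rw [hN i j (by rw [hi, hj]; exact hb), zero_mul]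
            · rw [hY b' j a' hj, mul_zero]
          · rw [hX b a i hi, zero_mul]
      rw [e, op_cm_one])
  rw [Fintype.card_sigma] at key
  simpa using key

end fac

end Pool.Agent.W7h60.OM
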