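import Pool.Agent.W7h60.OM.Abs

set_option autoImplicit false
set_option linter.unusedSectionVars false

/-! Simplicial complexes with group actions and heights: definitions and combinatorics. -/

namespace Pool.Agent.W7h60.OM

open Classical

/-- A simplicial complex with vertices in `V`: a set of nonempty finite sets of vertices (the
simplices) which contains the nonempty subsets of its members. -/
structure Complex (V : Type) where
  /-- the simplices -/
  faces : Set (Finset V)
  nonempty : ∀ s ∈ faces, s.Nonempty
  down : ∀ s ∈ faces, ∀ t ⊆ s, t.Nonempty → t ∈ faces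

/-- the translate of a set of vertices -/
noncomputable def act {G V : Type} [Group G] [MulAction G V] (g : G) (s : Finset V) : Finset V :=
  s.image fun v => g • v

/-- The group `G` acts freely on the simplicial complex `X` with finitely many orbits of vertices,
represented by the elements of `R`, and every vertex is contained in finitely many simplices. `G`
acts on the totally ordered set `Ω` by order automorphisms, and `h` is an equivariant map from the
vertices of `X` to `Ω` whose values at the vertices of a simplex are pairwise different. -/
structure Heights (G : Type) {V Ω : Type} [Group G] [MulAction G V] [LinearOrder Ω]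
    [MulAction G Ω] (X : Complex V) (h : V → Ω) (R : Finset V) : Prop where
  inv : ∀ (g : G), ∀ s ∈ X.faces, act g s ∈ X.faces
  free : ∀ (g : G) (v : V), g • v = v → g = 1
  star : ∀ v : V, {s | s ∈ X.faces ∧ v ∈ s}.Finite
  cover : ∀ v : V, ∃ r ∈ R, ∃ g : G, g • r = v
  unique : ∀ r ∈ R, ∀ r' ∈ R, ∀ g : G, g • r = r' → r = r'
  order : ∀ (g : G) (a b : Ω), a ≤ b → g • a ≤ g • b
  equivariant : ∀ (g : G) (v : V), h (g • v) = g • h v
  generic : ∀ s ∈ X.faces, ∀ u ∈ s, ∀ v ∈ s, h u = h v → u = v

section defs

variable {V Ω : Type} [LinearOrder Ω]

/-- The incidence number of `s` and `t`: if `t` is obtained from `s` by removing the vertex `w` it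
is `1` or `-1` according to the parity of the number of vertices of `s` above `w`, and otherwise it
is zero. -/
noncomputable def incid (h : V → Ω) (s t : Finset V) : ℂ :=
  ∑ w ∈ s, if s.erase w = t then (-1) ^ (s.filter fun u => h w < h u).card else 0

/-- the simplices of dimension `k` -/
abbrev Cell (X : Complex V) (k : ℕ) : Type := {s : Finset V // s ∈ X.faces ∧ s.card = k + 1}

/-- The `ℓ²` harmonic `k`-chains: the square-summable functions on the `k`-simplices whose boundary
and coboundary vanish. -/
def harmonic (X : Complex V) (h : V → Ω) (k : ℕ) : Set (lp (fun _ : Cell X k => ℂ) 2) :=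
  {x | (∀ t ∈ X.faces, ∑' s : Cell X k, incid h s.1 t * x s = 0) ∧
    ∀ r ∈ X.faces, ∑' s : Cell X k, incid h r s.1 * x s = 0}

/-- The `ℓ²`-Betti number, that is, the von Neumann dimension of the space of the harmonic
`k`-chains, computed from a set `S` of representatives of the orbits of `k`-simplices: the sum over
`s` in `S` of one minus the squared distance from the indicator function of `s` to the harmonic
chains. -/
noncomputable def l2Betti (X : Complex V) (h : V → Ω) (k : ℕ) (S : Finset (Cell X k)) : ℝ :=
  ∑ s ∈ S, (1 - (Metric.infDist (lp.single 2 s (1 : ℂ) : lp (fun _ : Cell X k => ℂ) 2)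
    (harmonic X h k)) ^ 2)

/-- The descending link of the vertex `v` (with the empty simplex): the simplices of the link all of
whose vertices are lower than `v`. -/
def descLink (X : Complex V) (h : V → Ω) (v : V) : Set (Finset V) :=
  {s | v ∉ s ∧ insert v s ∈ X.faces ∧ ∀ u ∈ s, h u < h v}

/-- The rank of the incidence matrix of the members of `L` with `a` elements and those with `b`
elements (the dimension of the space spanned by its rows). -/
noncomputable def incRank (h : V → Ω) (L : Set (Finset V)) (a b : ℕ) : ℕ :=
  Module.finrank ℂ (Submodule.span ℂ (Set.range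
    fun (s : {s : Finset V // s ∈ L ∧ s.card = a}) (t : {t : Finset V // t ∈ L ∧ t.card = b}) =>
      incid h s.1 t.1))

/-- The dimension of the reduced homology in degree `k - 1` with complex coefficients of the finite
simplicial complex `L` (with the empty simplex): the number of the simplices with `k` vertices minus
the ranks of the two boundary maps. -/
noncomputable def redBetti (h : V → Ω) (L : Set (Finset V)) (k : ℕ) : ℤ :=
  (Nat.card {s : Finset V // s ∈ L ∧ s.card = k} : ℤ) - incRank h L k (k - 1) -
    incRank h L (k + 1) k

end defs

section comb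

variable {V Ω : Type} [LinearOrder Ω] {h : V → Ω}

theorem incid_ne {s t : Finset V} (h0 : incid h s t ≠ 0) : t ⊆ s ∧ t.card + 1 = s.card := by
  unfold incid at h0
  obtain ⟨w, hw, h1⟩ := Finset.exists_ne_zero_of_sum_ne_zero h0
  have h2 : s.erase w = t := by
    by_contra hc
    exact h1 (if_neg hc)
  rw [← h2]
  exact ⟨Finset.erase_subset _ _, Finset.card_erase_add_one hw⟩

theorem incid_conj (s t : Finset V) : (starRingEnd ℂ) (incid h s t) = incid h s t := by
  unfold incid
  rw [map_sum]
  refine Finset.sum_congr rfl fun w _ => ?_
  split_ifs
  · rw [map_pow, map_neg, map_one]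
  · rw [map_zero]

/-- the sum over the faces of `r` -/
theorem sum_erase (r : Finset V) (F : Finset V → ℂ) :
    (∑ w ∈ r, (-1 : ℂ) ^ (r.filter fun u => h w < h u).card * F (r.erase w)) =
      ∑ w ∈ r, incid h r (r.erase w) * F (r.erase w) := by
  refine Finset.sum_congr rfl fun w hw => ?_
  congr 1
  unfold incid
  rw [Finset.sum_eq_single w]
  · rw [if_pos rfl]
  · intro w' hw' hne
    rw [if_neg]
    intro he
    apply hne
    have h1 : w ∉ r.erase w' := by rw [he]; exact Finset.notMem_erase w r
    by_contra hc
    exact h1 (Finset.mem_erase.2 ⟨Ne.symm hc, hw⟩)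
  · intro hc
    exact absurd hw hc

/-- the boundary of the boundary vanishes -/
theorem bdry_bdry {r : Finset V} (hr : ∀ u ∈ r, ∀ v ∈ r, h u = h v → u = v) (t : Finset V) :
    ∑ w ∈ r, (-1 : ℂ) ^ (r.filter fun u => h w < h u).card * incid h (r.erase w) t = 0 := by
  have e1 : ∀ w ∈ r, (-1 : ℂ) ^ (r.filter fun u => h w < h u).card * incid h (r.erase w) t
      = ∑ w' ∈ r.erase w, if (r.erase w).erase w' = t then
        (-1 : ℂ) ^ ((r.filter fun u => h w < h u).card +
          ((r.erase w).filter fun u => h w' < h u).card) else 0 := by
    intro w _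
    unfold incid
    rw [Finset.mul_sum]
    refine Finset.sum_congr rfl fun w' _ => ?_
    split_ifs
    · rw [pow_add]
    · rw [mul_zero]
  rw [Finset.sum_congr rfl e1, Finset.sum_sigma']
  apply Finset.sum_involution (fun p _ => ⟨p.2, p.1⟩)
  · rintro ⟨w, w'⟩ hp
    simp only [Finset.mem_sigma, Finset.mem_erase] at hp
    obtain ⟨hw, hne, hw'⟩ := hp
    have e2 : (r.erase w').erase w = (r.erase w).erase w' := Finset.erase_right_comm
    simp only
    rw [e2]
    by_cases ht : (r.erase w).erase w' = t
    · rw [if_pos ht, if_pos ht]
      -- the number of vertices above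
      have key : ∀ a b : V, a ∈ r → b ∈ r → a ≠ b → h a < h b →
          ((r.erase a).filter fun u => h b < h u).card = (r.filter fun u => h b < h u).card ∧
          ((r.erase b).filter fun u => h a < h u).card + 1
            = (r.filter fun u => h a < h u).card := by
        intro a b ha hb hab hlt
        constructor
        · congr 1
          ext u
          simp only [Finset.mem_filter, Finset.mem_erase]
          constructor
          · rintro ⟨⟨_, h2⟩, h3⟩
            exact ⟨h2, h3⟩
          · rintro ⟨h2, h3⟩
            refine ⟨⟨?_, h2⟩, h3⟩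
            rintro rfl
            exact lt_asymm hlt h3
        · rw [Finset.filter_erase]
          exact Finset.card_erase_add_one (Finset.mem_filter.2 ⟨hb, hlt⟩)
      rcases lt_trichotomy (h w) (h w') with hlt | heq | hlt
      · obtain ⟨k1, k2⟩ := key w w' hw hw' (Ne.symm hne) hlt
        rw [k1, ← k2]
        ring
      · exact absurd (hr w hw w' hw' heq) (Ne.symm hne)
      · obtain ⟨k1, k2⟩ := key w' w hw' hw hne hlt
        rw [k1, ← k2]
        ring
    · rw [if_neg ht, if_neg ht, add_zero]
  · rintro ⟨w, w'⟩ hp _ hcon
    simp only [Finset.mem_sigma, Finset.mem_erase] at hp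
    exact hp.2.1 (congrArg Sigma.fst hcon)
  · rintro ⟨w, w'⟩ _
    rfl
  · rintro ⟨w, w'⟩ hp
    simp only [Finset.mem_sigma, Finset.mem_erase] at hp ⊢
    exact ⟨hp.2.2, Ne.symm hp.2.1, hp.1⟩

/-- adding a highest vertex changes the sign -/
theorem incid_insert {v : V} {s t : Finset V} (hs : ∀ u ∈ s, h u < h v) (ht : v ∉ t)
    (hv : v ∉ s) : incid h (insert v s) (insert v t) = -incid h s t := by
  unfold incid
  rw [Finset.sum_insert hv, if_neg, zero_add, ← Finset.sum_neg_distrib]
  · refine Finset.sum_congr rfl fun w hw => ?_
    have hwv : w ≠ v := by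
      rintro rfl
      exact hv hw
    have e1 : (insert v s).erase w = insert v (s.erase w) := by
      rw [Finset.erase_insert_of_ne (Ne.symm hwv)]
    have e2 : (insert v (s.erase w) = insert v t) ↔ s.erase w = t := by
      constructor
      · intro h1
        have h2 : (insert v (s.erase w)).erase v = (insert v t).erase v := by rw [h1]
        rwa [Finset.erase_insert (fun hc => hv (Finset.mem_of_mem_erase hc)),
          Finset.erase_insert ht] at h2
      · intro h1
        rw [h1]
    have e3 : ((insert v s).filter fun u => h w < h u).card =
        (s.filter fun u => h w < h u).card + 1 := by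
      rw [Finset.filter_insert, if_pos (hs w hw), Finset.card_insert_of_notMem]
      intro hc
      exact hv (Finset.mem_of_mem_filter _ hc)
    rw [e1]
    by_cases ht' : s.erase w = t
    · rw [if_pos (e2.2 ht'), if_pos ht', e3, pow_succ]
      ring
    · rw [if_neg (fun hc => ht' (e2.1 hc)), if_neg ht', neg_zero]
  · intro hc
    have h1 : v ∉ (insert v s).erase v := Finset.notMem_erase _ _
    rw [hc] at h1
    exact h1 (Finset.mem_insert_self _ _)

end comb

end Pool.Agent.W7h60.OM
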