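import Pool.Agent.W7h60.OM.Oper

set_option autoImplicit false
set_option linter.unusedSectionVars false

open scoped InnerProductSpace InnerProduct ENNReal

/-! Based complexes with a free action, fibred over a set with heights. -/

namespace Pool.Agent.W7h60.OM.Gen

open Classical
open Pool.Agent.W649.ZL Pool.Agent.W7h60.LP

/-- A set `B` with a free action of the group `K` with representatives `R` of the orbits, and with
equivariant heights in a totally ordered set. -/
structure Base (K : Type) {B Ω : Type} [Group K] [MulAction K B] [LinearOrder Ω] [MulAction K Ω]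
    (h : B → Ω) (R : Finset B) : Prop where
  free : ∀ (g : K) (v : B), g • v = v → g = 1
  cover : ∀ v : B, ∃ r ∈ R, ∃ g : K, g • r = v
  unique : ∀ r ∈ R, ∀ r' ∈ R, ∀ g : K, g • r = r' → r = r'
  order : ∀ (g : K) (a b : Ω), a ≤ b → g • a ≤ g • b
  equivariant : ∀ (g : K) (v : B), h (g • v) = g • h v

section base

variable {K B Ω : Type} [Group K] [MulAction K B] [LinearOrder Ω] [MulAction K Ω]
variable {h : B → Ω} {R : Finset B}

theorem Base.lt (H : Base K h R) (g : K) {a b : Ω} : g • a < g • b ↔ a < b := by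
  constructor
  · intro hlt
    by_contra hc
    exact absurd hlt (not_lt.2 (H.order g b a (not_lt.1 hc)))
  · intro hlt
    refine lt_of_le_of_ne (H.order g a b hlt.le) fun he => hlt.ne ?_
    exact smul_left_cancel g he

theorem Base.rep_unique (H : Base K h R) {r r' : B} (hr : r ∈ R) (hr' : r' ∈ R) {g : K}
    (he : g • r = r') : g = 1 ∧ r = r' := by
  have h1 := H.unique r hr r' hr' g he
  refine ⟨H.free g r ?_, h1⟩
  rw [he, h1]

end base

/-- The cells over the base: `β` is the equivariant projection, with finite fibres. -/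
structure Fib (K : Type) {B C : Type} [Group K] [MulAction K B] [MulAction K C] (β : C → B) :
    Prop where
  eqv : ∀ (g : K) (c : C), β (g • c) = g • β c
  fin : ∀ v : B, {c | β c = v}.Finite

section fib

variable {K B Ω C : Type} [Group K] [MulAction K B] [MulAction K C] [LinearOrder Ω]
variable [MulAction K Ω]
variable {h : B → Ω} {R : Finset B} {β : C → B}

/-- the cells over the representatives -/
abbrev II (R : Finset B) (β : C → B) : Type := {c : C // β c ∈ R}

theorem II_finite (F : Fib K β) (R : Finset B) : Finite (II R β) := by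
  have h1 : (⋃ v ∈ R, {c | β c = v}).Finite :=
    Set.Finite.biUnion (Finset.finite_toSet R) fun v _ => F.fin v
  refine Set.Finite.to_subtype (h1.subset ?_)
  intro c hc
  rw [Set.mem_iUnion₂]
  exact ⟨β c, hc, rfl⟩

theorem exists_rep (H : Base K h R) (F : Fib K β) (c : C) :
    ∃ (x : K) (i : II R β), x⁻¹ • i.1 = c := by
  obtain ⟨r, hr, g, hg⟩ := H.cover (β c)
  refine ⟨g⁻¹, ⟨g⁻¹ • c, ?_⟩, ?_⟩
  · rw [F.eqv, ← hg, inv_smul_smul]
    exact hr
  · change g⁻¹⁻¹ • g⁻¹ • c = c
    rw [inv_inv, smul_inv_smul]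

theorem rep_inj (H : Base K h R) (F : Fib K β) {x y : K} {i j : II R β}
    (he : x⁻¹ • i.1 = y⁻¹ • j.1) : x = y ∧ i = j := by
  have h1 : i.1 = (x * y⁻¹) • j.1 := by
    rw [mul_smul, ← he, smul_inv_smul]
  have h2 : (x * y⁻¹) • β j.1 = β i.1 := by rw [← F.eqv, ← h1]
  obtain ⟨h3, _⟩ := H.rep_unique j.2 i.2 h2
  refine ⟨mul_inv_eq_one.1 h3, Subtype.ext ?_⟩
  rw [h1, h3, one_smul]

/-- all cells are the translates of the cells over the representatives -/
noncomputable def eqC (H : Base K h R) (F : Fib K β) : K × II R β ≃ C :=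
  Equiv.ofBijective (fun p => p.1⁻¹ • p.2.1) (by
    constructor
    · rintro ⟨x, i⟩ ⟨y, j⟩ he
      obtain ⟨h1, h2⟩ := rep_inj H F he
      exact Prod.ext h1 h2
    · intro c
      obtain ⟨x, i, hx⟩ := exists_rep H F c
      exact ⟨(x, i), hx⟩)

theorem eqC_apply (H : Base K h R) (F : Fib K β) (x : K) (i : II R β) :
    eqC H F (x, i) = x⁻¹ • i.1 := rfl

end fib

/-- Invariant incidence numbers of two families of cells over the base: finitely many for each cell of
the first family, and different from zero only if the second cell is over a lower point of the base or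
over the same point. -/
structure Inc (K : Type) {B Ω C D : Type} [Group K] [MulAction K B] [MulAction K C]
    [MulAction K D] [LinearOrder Ω] (h : B → Ω) (β : C → B) (γ : D → B) (ι : C → D → ℂ) :
    Prop where
  inv : ∀ (g : K) (c : C) (d : D), ι (g • c) (g • d) = ι c d
  fin : ∀ c : C, {d | ι c d ≠ 0}.Finite
  real : ∀ (c : C) (d : D), (starRingEnd ℂ) (ι c d) = ι c d
  lower : ∀ (c : C) (d : D), ι c d ≠ 0 → γ d = β c ∨ h (γ d) < h (β c)

section inc

variable {K B Ω C D : Type} [Group K] [MulAction K B] [MulAction K C] [MulAction K D]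
variable [LinearOrder Ω] [MulAction K Ω]
variable {h : B → Ω} {R : Finset B} {β : C → B} {γ : D → B} {ι : C → D → ℂ}

/-- the matrix of the incidence numbers -/
noncomputable def mat (H : Base K h R) (FD : Fib K γ) (N : Inc K h β γ ι) (i : II R β)
    (j : II R γ) : K →₀ ℂ :=
  Finsupp.ofSupportFinite (fun g => ι i.1 (g • j.1)) (by
    refine Set.Finite.of_finite_image (f := fun g : K => g • j.1)
      ((N.fin i.1).subset ?_) ?_
    · rintro _ ⟨g, hg, rfl⟩
      exact hg
    · intro g _ g' _ he
      have he' : g • j.1 = g' • j.1 := he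
      have h1 : g⁻¹⁻¹ • j.1 = g'⁻¹⁻¹ • j.1 := by rw [inv_inv, inv_inv, he']
      exact inv_injective (rep_inj H FD h1).1)

variable (H : Base K h R) (FC : Fib K β) (FD : Fib K γ) (N : Inc K h β γ ι)

theorem mat_apply (i : II R β) (j : II R γ) (g : K) : mat H FD N i j g = ι i.1 (g • j.1) := rfl

theorem mat_apply' (i : II R β) (j : II R γ) (x u : K) :
    mat H FD N i j (x * u⁻¹) = ι (x⁻¹ • i.1) (u⁻¹ • j.1) := by
  rw [mat_apply, ← N.inv x⁻¹, ← mul_smul, inv_mul_cancel_left]

variable [Fintype (II R β)] [Fintype (II R γ)]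

/-- the operator -/
noncomputable abbrev Top : EE K (II R β) →L[ℂ] EE K (II R γ) := op (mat H FD N)

theorem T_dl (x : K) (i : II R β) (u : K) (j : II R γ) :
    Top H FD N (dl (x, i)) (u, j) = ι (x⁻¹ • i.1) (u⁻¹ • j.1) := by
  rw [op_dl, mat_apply']

theorem T_apply (f : EE K (II R β)) (u : K) (j : II R γ) :
    Top H FD N f (u, j) =
      ∑' p : K × II R β, ι (p.1⁻¹ • p.2.1) (u⁻¹ • j.1) * f p := by
  rw [op_apply, tsum_eq_sum (s := (Finset.univ.sigma fun i => (mat H FD N i j).support).image
    fun q : (_ : II R β) × K => (q.2 * u, q.1))]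
  · rw [Finset.sum_image, Finset.sum_sigma]
    · refine Finset.sum_congr rfl fun i _ => Finset.sum_congr rfl fun g _ => ?_
      simp only
      rw [← mat_apply' H FD N i j (g * u) u, mul_inv_cancel_right]
    · rintro ⟨s, g⟩ _ ⟨s', g'⟩ _ he
      simp only [Prod.mk.injEq, mul_left_inj] at he
      obtain ⟨h1, h2⟩ := he
      subst h1 h2
      rfl
  · rintro ⟨x, s⟩ hp
    have h0 : ι (x⁻¹ • s.1) (u⁻¹ • j.1) = 0 := by
      by_contra hc
      apply hp
      rw [Finset.mem_image]
      refine ⟨⟨s, x * u⁻¹⟩, ?_, ?_⟩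
      · rw [Finset.mem_sigma]
        refine ⟨Finset.mem_univ _, ?_⟩
        rw [Finsupp.mem_support_iff, mat_apply']
        exact hc
      · simp only [inv_mul_cancel_right]
    simp only
    rw [h0, zero_mul]

theorem T_cell (f : lp (fun _ : C => ℂ) 2) (u : K) (j : II R γ) :
    Top H FD N (pull (eqC H FC) f) (u, j) = ∑' c : C, ι c (u⁻¹ • j.1) * f c := by
  have h1 := (eqC H FC).tsum_eq (fun c : C => ι c (u⁻¹ • j.1) * f c)
  rw [T_apply, ← h1]
  rfl

theorem T_inner (f : lp (fun _ : D => ℂ) 2) (x : K) (i : II R β) :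
    ⟪Top H FD N (dl (x, i)), pull (eqC H FD) f⟫_ℂ =
      ∑' d : D, ι (x⁻¹ • i.1) d * f d := by
  have h1 := (eqC H FD).tsum_eq (fun d : D => ι (x⁻¹ • i.1) d * f d)
  rw [lp.inner_eq_tsum, ← h1]
  refine tsum_congr fun p => ?_
  obtain ⟨u, s⟩ := p
  rw [T_dl, pull_apply, eqC_apply]
  simp only [RCLike.inner_apply, N.real]
  ring

/-- the kernel condition -/
theorem ker_iff (f : lp (fun _ : C => ℂ) 2) :
    Top H FD N (pull (eqC H FC) f) = 0 ↔ ∀ d : D, ∑' c : C, ι c d * f c = 0 := by
  constructor
  · intro h1 d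
    obtain ⟨x, j, hx⟩ := exists_rep H FD d
    rw [← hx, ← T_cell H FC FD N f x j, h1]
    rfl
  · intro h1
    ext ⟨u, j⟩
    rw [T_cell, h1]
    rfl

include FC in
/-- the orthogonality condition -/
theorem orth_iff (f : lp (fun _ : D => ℂ) 2) :
    pull (eqC H FD) f ∈ (LinearMap.range (Top H FD N : EE K (II R β) →ₗ[ℂ] EE K (II R γ)))ᗮ ↔
      ∀ c : C, ∑' d : D, ι c d * f d = 0 := by
  constructor
  · intro h1 c
    obtain ⟨x, i, hx⟩ := exists_rep H FC c
    rw [← hx, ← T_inner H FD N f x i]
    rw [Submodule.mem_orthogonal] at h1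
    exact h1 _ ⟨dl (x, i), rfl⟩
  · intro h1
    rw [Submodule.mem_orthogonal]
    rintro _ ⟨F, rfl⟩
    have h2 : (innerSL ℂ (pull (eqC H FD) f)).comp (Top H FD N) = 0 := by
      apply clm_ext
      rintro ⟨x, i⟩
      rw [ContinuousLinearMap.comp_apply, zero_apply]
      change ⟪pull (eqC H FD) f, Top H FD N (dl (x, i))⟫_ℂ = 0
      rw [← inner_conj_symm, T_inner, h1, map_zero]
    have h3 := congrArg (fun A : EE K (II R β) →L[ℂ] ℂ => A F) h2
    rw [ContinuousLinearMap.comp_apply, zero_apply] at h3
    have h4 : ⟪pull (eqC H FD) f, Top H FD N F⟫_ℂ = 0 := h3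
    rw [← inner_conj_symm]
    change (starRingEnd ℂ) ⟪pull (eqC H FD) f, Top H FD N F⟫_ℂ = 0
    rw [h4, map_zero]

/-- the fibre over a point -/
abbrev DD (β : C → B) (v : B) : Type := {c : C // β c = v}

/-- the rank of the incidence matrix of the cells over a point -/
noncomputable def rk (β : C → B) (γ : D → B) (ι : C → D → ℂ) (v : B) : ℕ :=
  Module.finrank ℂ (Submodule.span ℂ (Set.range
    fun (c : DD β v) (d : DD γ v) => ι c.1 d.1))

theorem rk_eq (v : B) [Finite (DD β v)] [Fintype (DD γ v)] :
    rk β γ ι v = (Matrix.of fun (c : DD β v) (d : DD γ v) => ι c.1 d.1).rank := by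
  rw [Matrix.rank_eq_finrank_span_row]
  rfl

/-- the incidence numbers over the same representative -/
noncomputable def nn (R : Finset B) (ι : C → D → ℂ) (i : II R β) (j : II R γ) : ℂ :=
  if β i.1 = γ j.1 then ι i.1 j.1 else 0

include FC in
theorem lead_le :
    vd (LinearMap.ker (Top H FD N : EE K (II R β) →ₗ[ℂ] EE K (II R γ))) ≤
      vd (LinearMap.ker (op (cm (G := K) (nn (β := β) (γ := γ) R ι)) :
        EE K (II R β) →ₗ[ℂ] EE K (II R γ))) := by
  apply ker_le (Ω := Ωᵒᵈ) (Top H FD N) (op (cm (nn R ι))) (op_eqv _)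
    (fun p => OrderDual.toDual (p.1⁻¹ • h (β p.2.1)))
    (fun p => OrderDual.toDual (p.1⁻¹ • h (γ p.2.1)))
  · intro g c d hcd
    exact (H.lt g).2 hcd
  · rintro g ⟨x, s⟩
    change OrderDual.toDual ((x * g⁻¹)⁻¹ • h (β s.1)) = OrderDual.toDual (g • x⁻¹ • h (β s.1))
    rw [mul_inv_rev, inv_inv, mul_smul]
  · rintro ⟨x, i⟩ ⟨u, j⟩ h0
    rw [T_dl] at h0
    rw [OrderDual.toDual_le_toDual, ← H.equivariant, ← H.equivariant]
    have h1 := N.lower _ _ h0
    rw [FD.eqv, FC.eqv] at h1
    rcases h1 with h1 | h1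
    · rw [h1]
    · exact h1.le
  · rintro ⟨x, i⟩ ⟨u, j⟩ he
    have he' : x⁻¹ • h (β i.1) = u⁻¹ • h (γ j.1) := he
    rw [T_dl, op_dl]
    unfold cm
    rw [Finsupp.single_apply]
    by_cases h0 : ι (x⁻¹ • i.1) (u⁻¹ • j.1) = 0
    · rw [h0]
      by_cases hx : 1 = x * u⁻¹
      · rw [if_pos hx]
        have hxu : x = u := mul_inv_eq_one.1 hx.symm
        subst hxu
        rw [N.inv] at h0
        unfold nn
        rw [h0, ite_self]
      · rw [if_neg hx]
    · have h1 := N.lower _ _ h0
      rw [← H.equivariant, ← H.equivariant, ← FC.eqv, ← FD.eqv] at he'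
      have h2 : γ (u⁻¹ • j.1) = β (x⁻¹ • i.1) := by
        rcases h1 with h1 | h1
        · exact h1
        · exact absurd he' (ne_of_gt h1)
      rw [FD.eqv, FC.eqv] at h2
      have h3 : (x * u⁻¹) • γ j.1 = β i.1 := by
        rw [mul_smul, h2, smul_inv_smul]
      obtain ⟨h6, h7⟩ := H.rep_unique j.2 i.2 h3
      rw [if_pos h6.symm]
      have hxu : x = u := mul_inv_eq_one.1 h6
      subst hxu
      rw [N.inv]
      unfold nn
      rw [if_pos h7.symm]
  · rintro ⟨x, i⟩ ⟨u, j⟩ he
    rw [op_dl]
    unfold cm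
    rw [Finsupp.single_apply]
    by_cases hx : 1 = x * u⁻¹
    · rw [if_pos hx]
      unfold nn
      rw [if_neg]
      intro htp
      apply he
      change OrderDual.toDual (x⁻¹ • h (β i.1)) = OrderDual.toDual (u⁻¹ • h (γ j.1))
      have hxu : x = u := mul_inv_eq_one.1 hx.symm
      rw [htp, hxu]
    · rw [if_neg hx]

/-- a cell over a representative -/
def inII (v : R) (c : DD β (v : B)) : II R β := ⟨c.1, by rw [c.2]; exact v.2⟩

include FC FD in
theorem block :
    vd (LinearMap.ker (op (cm (G := K) (nn (β := β) (γ := γ) R ι)) :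
        EE K (II R β) →ₗ[ℂ] EE K (II R γ))) ≤
      Fintype.card (II R β) - ∑ v : R, (rk β γ ι (v : B) : ℝ) := by
  have hfin : ∀ v : B, Fintype (DD β v) := fun v =>
    @Fintype.ofFinite _ (FC.fin v).to_subtype
  have hfin' : ∀ v : B, Fintype (DD γ v) := fun v =>
    @Fintype.ofFinite _ (FD.fin v).to_subtype
  have key := ker_block (G := K) (B := R) (fun s : II R β => (⟨β s.1, s.2⟩ : R))
    (fun s : II R γ => (⟨γ s.1, s.2⟩ : R)) (nn R ι)
    (fun s t hst => if_neg fun he => hst (Subtype.ext he)) (fun v => rk β γ ι (v : B)) (by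
      intro v
      obtain ⟨Xv, Yv, hXY⟩ := exists_factor'
        (Matrix.of fun (c : DD β (v : B)) (d : DD γ (v : B)) => ι c.1 d.1)
      rw [rk_eq]
      refine ⟨fun i s => ∑ s' : DD β (v : B), if inII v s' = s then Xv i s' else 0,
        fun t i => ∑ t' : DD γ (v : B), if inII v t' = t then Yv t' i else 0, ?_, ?_, ?_⟩
      · intro i s hs
        refine Finset.sum_eq_zero fun s' _ => ?_
        rw [if_neg]
        rintro rfl
        exact hs (Subtype.ext s'.2)
      · intro t i ht
        refine Finset.sum_eq_zero fun t' _ => ?_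
        rw [if_neg]
        rintro rfl
        exact ht (Subtype.ext t'.2)
      · intro i j
        rw [← hXY i j]
        have e1 : ∀ (s : II R β) (t : II R γ),
            (∑ s' : DD β (v : B), if inII v s' = s then Xv i s' else 0) *
              nn R ι s t *
              (∑ t' : DD γ (v : B), if inII v t' = t then Yv t' j else 0) =
            ∑ s' : DD β (v : B), ∑ t' : DD γ (v : B),
              if inII v s' = s then (if inII v t' = t then
                Xv i s' * nn R ι s t * Yv t' j else 0) else 0 := by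
          intro s t
          rw [Finset.sum_mul, Finset.sum_mul]
          refine Finset.sum_congr rfl fun s' _ => ?_
          rw [Finset.mul_sum]
          refine Finset.sum_congr rfl fun t' _ => ?_
          split_ifs <;> ring
        simp only [e1]
        have e2 : ∀ s : II R β, (∑ t : II R γ,
            ∑ s' : DD β (v : B), ∑ t' : DD γ (v : B),
              if inII v s' = s then (if inII v t' = t then
                Xv i s' * nn R ι s t * Yv t' j else 0) else 0) =
            ∑ s' : DD β (v : B), ∑ t' : DD γ (v : B),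
              if inII v s' = s then Xv i s' * nn R ι s (inII v t') * Yv t' j
              else 0 := by
          intro s
          rw [Finset.sum_comm]
          refine Finset.sum_congr rfl fun s' _ => ?_
          rw [Finset.sum_comm]
          refine Finset.sum_congr rfl fun t' _ => ?_
          by_cases hs : inII v s' = s
          · simp only [if_pos hs]
            rw [Finset.sum_ite_eq Finset.univ (inII v t'), if_pos (Finset.mem_univ _)]
          · simp only [if_neg hs, Finset.sum_const_zero]
        simp only [e2]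
        rw [Finset.sum_comm]
        refine Finset.sum_congr rfl fun s' _ => ?_
        rw [Finset.sum_comm]
        refine Finset.sum_congr rfl fun t' _ => ?_
        rw [Finset.sum_ite_eq Finset.univ (inII v s'), if_pos (Finset.mem_univ _),
          Matrix.of_apply]
        congr 1
        congr 1
        exact if_pos (s'.2.trans t'.2.symm))
  simpa using key

omit [Fintype (II R γ)] in
include FC in
theorem card_II :
    (Fintype.card (II R β) : ℝ) = ∑ v : R, (Nat.card (DD β (v : B)) : ℝ) := by
  have hfin : ∀ v : B, Fintype (DD β v) := fun v =>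
    @Fintype.ofFinite _ (FC.fin v).to_subtype
  have e : II R β ≃ Σ v : R, DD β (v : B) :=
    { toFun := fun i => ⟨⟨β i.1, i.2⟩, ⟨i.1, rfl⟩⟩
      invFun := fun q => inII q.1 q.2
      left_inv := fun i => rfl
      right_inv := by
        rintro ⟨⟨v, hv⟩, ⟨c, hc⟩⟩
        change β c = v at hc
        subst hc
        rfl }
  rw [Fintype.card_congr e, Fintype.card_sigma]
  push_cast
  refine Finset.sum_congr rfl fun v _ => ?_
  rw [Nat.card_eq_fintype_card]

end inc

end Pool.Agent.W7h60.OM.Gen
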