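import Pool.Agent.W7h60.OM.Gen

set_option autoImplicit false
set_option linter.unusedSectionVars false

open scoped InnerProductSpace InnerProduct ENNReal

/-! Based complexes with a free action: the inequality for the harmonic chains. -/

namespace Pool.Agent.W7h60.OM.Gen

open Classical
open Pool.Agent.W649.ZL Pool.Agent.W7h60.LP

section

variable {K B Ω C2 C1 C0 : Type} [Group K] [MulAction K B] [MulAction K C2] [MulAction K C1]
  [MulAction K C0] [LinearOrder Ω] [MulAction K Ω]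
variable {h : B → Ω} {R : Finset B} {β2 : C2 → B} {β1 : C1 → B} {β0 : C0 → B}
variable {ι2 : C2 → C1 → ℂ} {ι1 : C1 → C0 → ℂ}

/-- the harmonic chains -/
def harmonicC (ι2 : C2 → C1 → ℂ) (ι1 : C1 → C0 → ℂ) : Set (lp (fun _ : C1 => ℂ) 2) :=
  {f | (∀ d : C0, ∑' c : C1, ι1 c d * f c = 0) ∧ ∀ c : C2, ∑' d : C1, ι2 c d * f d = 0}

variable (H : Base K h R) (F2 : Fib K β2) (F1 : Fib K β1) (F0 : Fib K β0)
  (N2 : Inc K h β2 β1 ι2) (N1 : Inc K h β1 β0 ι1)
  (hdd : ∀ (c : C2) (d : C0), ∑' e : C1, ι1 e d * ι2 c e = 0)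

variable [Fintype (II R β2)] [Fintype (II R β1)] [Fintype (II R β0)]

include hdd in
theorem TT (f : EE K (II R β2)) : Top H F0 N1 (Top H F1 N2 f) = 0 := by
  have h2 : (Top H F0 N1).comp (Top H F1 N2) = 0 := by
    apply clm_ext
    rintro ⟨x, i⟩
    rw [ContinuousLinearMap.comp_apply, zero_apply]
    ext ⟨u, j⟩
    rw [T_apply]
    have h3 : ∀ p : K × II R β1, ι1 (p.1⁻¹ • p.2.1) (u⁻¹ • j.1) *
        Top H F1 N2 (dl (x, i)) p =
        (fun e : C1 => ι1 e (u⁻¹ • j.1) * ι2 (x⁻¹ • i.1) e) (eqC H F1 p) := by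
      rintro ⟨y, s⟩
      rw [T_dl]
      rfl
    have h4 := (eqC H F1).tsum_eq
      (fun e : C1 => ι1 e (u⁻¹ • j.1) * ι2 (x⁻¹ • i.1) e)
    refine (tsum_congr h3).trans (h4.trans ?_)
    exact hdd _ _
  exact congrArg (fun A : EE K (II R β2) →L[ℂ] EE K (II R β0) => A f) h2

include F2 in
theorem pull_harmonicC (f : lp (fun _ : C1 => ℂ) 2) :
    f ∈ harmonicC ι2 ι1 ↔ pull (eqC H F1) f ∈ harm (Top H F0 N1) (Top H F1 N2) := by
  unfold harm
  rw [Submodule.mem_inf, orth_iff H F2 F1 N2]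
  apply and_congr
  · exact (ker_iff H F1 F0 N1 f).symm
  · exact Iff.rfl

include F2 in
theorem image_harmonicC :
    pull (eqC H F1) '' (harmonicC ι2 ι1) =
      (harm (Top H F0 N1) (Top H F1 N2) : Set (EE K (II R β1))) := by
  ext F
  constructor
  · rintro ⟨f, hf, rfl⟩
    exact (pull_harmonicC H F2 F1 F0 N2 N1 f).1 hf
  · intro hF
    obtain ⟨f, rfl⟩ := pull_surj (eqC H F1) F
    exact ⟨f, (pull_harmonicC H F2 F1 F0 N2 N1 f).2 hF, rfl⟩

include F2 hdd in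
theorem vd_harmC_le :
    vd (harm (Top H F0 N1) (Top H F1 N2)) ≤
      ∑ v : R, ((Nat.card (DD β1 (v : B)) : ℝ) - rk β1 β0 ι1 (v : B) - rk β2 β1 ι2 (v : B)) := by
  have h1 := vd_harm (Top H F0 N1) (Top H F1 N2) (op_eqv _) (TT H F1 F0 N2 N1 hdd)
  have h2 := (lead_le H F1 F0 N1).trans (block F1 F0)
  have h3 := (lead_le H F2 F1 N2).trans (block F2 F1)
  have h4 := card_II (R := R) F1
  rw [Finset.sum_sub_distrib, Finset.sum_sub_distrib, h1]
  linarith

/-- the dimension in terms of the cells over the representatives -/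
theorem dim_harmC (P : Submodule ℂ (EE K (II R β1))) (hP : IsClosed (P : Set (EE K (II R β1))))
    (A : Set (lp (fun _ : C1 => ℂ) 2)) (hA : pull (eqC H F1) '' A = P) :
    ∑ i : II R β1, (1 - (Metric.infDist (lp.single 2 i.1 (1 : ℂ) : lp (fun _ : C1 => ℂ) 2) A) ^ 2)
      = vd P := by
  rw [vd_eq_infDist P hP]
  refine Finset.sum_congr rfl fun i _ => ?_
  congr 2
  rw [← hA, ← Metric.infDist_image (isometry_pull (eqC H F1))]
  congr 1
  have e : eqC H F1 ((1 : K), i) = i.1 := by rw [eqC_apply, inv_one, one_smul]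
  ext p
  rw [pull_apply]
  by_cases hp : p = ((1 : K), i)
  · subst hp
    rw [e, lp.single_apply_self, dl_apply_self]
  · have hp' : eqC H F1 p ≠ i.1 := by
      rw [← e]
      exact fun h => hp ((eqC H F1).injective h)
    rw [lp.single_apply_ne _ _ _ hp', dl_apply_ne _ _ hp]

include H F2 F1 F0 N2 N1 hdd in
/-- the Morse inequality -/
theorem morse :
    ∑ i : II R β1, (1 - (Metric.infDist (lp.single 2 i.1 (1 : ℂ) : lp (fun _ : C1 => ℂ) 2)
      (harmonicC ι2 ι1)) ^ 2) ≤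
      ∑ v : R, ((Nat.card (DD β1 (v : B)) : ℝ) - rk β1 β0 ι1 (v : B) - rk β2 β1 ι2 (v : B)) := by
  rw [dim_harmC H F1 _ (harm_closed (Top H F0 N1) (Top H F1 N2)) _
    (image_harmonicC H F2 F1 F0 N2 N1)]
  exact vd_harmC_le H F2 F1 F0 N2 N1 hdd

include H F2 F1 F0 N2 N1 hdd in
/-- the vanishing criterion -/
theorem vanish (h0 : ∀ v ∈ R, (Nat.card (DD β1 v) : ℝ) - rk β1 β0 ι1 v - rk β2 β1 ι2 v = 0)
    (f : lp (fun _ : C1 => ℂ) 2) (hf : f ∈ harmonicC ι2 ι1) : f = 0 := by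
  have h1 := vd_harmC_le H F2 F1 F0 N2 N1 hdd
  rw [Finset.sum_eq_zero (fun (v : R) _ => h0 v.1 v.2)] at h1
  have h2 := eq_bot_of_vd_eq_zero _ (harm_inv _ _ (op_eqv _) (op_eqv _)) h1
  have h3 := (pull_harmonicC H F2 F1 F0 N2 N1 f).1 hf
  rw [h2, Submodule.mem_bot] at h3
  have h4 : pull (eqC H F1) f = pull (eqC H F1) 0 := by
    rw [h3]
    ext y
    rfl
  exact (isometry_pull _).injective h4

end

end Pool.Agent.W7h60.OM.Gen
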