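import Pool.Agent.W7h60.OM.Top

set_option autoImplicit false
set_option linter.unusedSectionVars false

open scoped InnerProductSpace InnerProduct ENNReal

/-! The boundary operators. -/

namespace Pool.Agent.W7h60.OM

open Classical
open Pool.Agent.W649.ZL Pool.Agent.W7h60.LP

section pull

variable {A B : Type}

theorem memlp_pull (e : A ≃ B) (x : lp (fun _ : B => ℂ) 2) : Memℓp (fun a => x (e a)) 2 := by
  rw [memlp_two_iff]
  have h := (memlp_two_iff _).1 x.2
  exact (Equiv.summable_iff e).2 h

/-- change of the index set -/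
noncomputable def pull (e : A ≃ B) (x : lp (fun _ : B => ℂ) 2) : lp (fun _ : A => ℂ) 2 :=
  ⟨fun a => x (e a), memlp_pull e x⟩

theorem pull_apply (e : A ≃ B) (x : lp (fun _ : B => ℂ) 2) (a : A) : pull e x a = x (e a) := rfl

theorem isometry_pull (e : A ≃ B) : Isometry (pull e) := by
  apply Isometry.of_dist_eq
  intro f g
  rw [dist_eq_norm, dist_eq_norm]
  have e1 : pull e f - pull e g = pull e (f - g) := by
    ext x; rfl
  rw [e1]
  have e2 : ‖pull e (f - g)‖ ^ 2 = ‖f - g‖ ^ 2 := by
    rw [norm_sq_tsum, norm_sq_tsum]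
    exact e.tsum_eq (fun x => ‖(f - g) x‖ ^ 2)
  exact (sq_eq_sq₀ (norm_nonneg _) (norm_nonneg _)).1 e2

theorem pull_surj (e : A ≃ B) (F : lp (fun _ : A => ℂ) 2) : ∃ x, pull e x = F := by
  refine ⟨pull e.symm F, ?_⟩
  ext a
  rw [pull_apply, pull_apply, e.symm_apply_apply]

theorem pull_single (e : A ≃ B) (a : A) :
    pull e (lp.single 2 (e a) (1 : ℂ)) = (lp.single 2 a (1 : ℂ) : lp (fun _ : A => ℂ) 2) := by
  ext a'
  rw [pull_apply]
  by_cases h : a' = a
  · subst h
    rw [lp.single_apply_self, lp.single_apply_self]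
  · rw [lp.single_apply_ne _ _ _ h, lp.single_apply_ne _ _ _ (fun hc => h (e.injective hc))]

end pull

section oper

variable {G V Ω : Type} [Group G] [MulAction G V] [LinearOrder Ω] [MulAction G Ω]
variable {X : Complex V} {h : V → Ω} {R : Finset V}

/-- the matrix of the incidence numbers -/
noncomputable def mat (H : Heights G X h R) (a b : ℕ) (s : KK X h R a) (t : KK X h R b) : G →₀ ℂ :=
  Finsupp.ofSupportFinite (fun g => incid h s.1 (act g t.1)) (by
    refine (fin_translates H s.1 t.1 (X.nonempty _ t.2.1)).subset fun g hg => ?_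
    exact (incid_ne hg).1)

theorem mat_apply (H : Heights G X h R) (a b : ℕ) (s : KK X h R a) (t : KK X h R b) (g : G) :
    mat H a b s t g = incid h s.1 (act g t.1) := rfl

theorem mat_apply' (H : Heights G X h R) (a b : ℕ) (s : KK X h R a) (t : KK X h R b) (x u : G) :
    mat H a b s t (x * u⁻¹) = incid h (act x⁻¹ s.1) (act u⁻¹ t.1) := by
  rw [mat_apply, ← incid_act H x⁻¹, act_act, inv_mul_cancel_left]

variable {a b : ℕ} [Fintype (KK X h R a)] [Fintype (KK X h R b)]

theorem T_dl (H : Heights G X h R) (x : G) (s : KK X h R a) (u : G) (t : KK X h R b) :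
    op (mat H a b) (dl (x, s)) (u, t) = incid h (act x⁻¹ s.1) (act u⁻¹ t.1) := by
  rw [op_dl, mat_apply']

theorem T_apply (H : Heights G X h R) (F : EE G (KK X h R a)) (u : G) (t : KK X h R b) :
    op (mat H a b) F (u, t) =
      ∑' p : G × KK X h R a, incid h (act p.1⁻¹ p.2.1) (act u⁻¹ t.1) * F p := by
  rw [op_apply, tsum_eq_sum (s := (Finset.univ.sigma fun s => (mat H a b s t).support).image
    fun q : (_ : KK X h R a) × G => (q.2 * u, q.1))]
  · rw [Finset.sum_image, Finset.sum_sigma]
    · refine Finset.sum_congr rfl fun s _ => Finset.sum_congr rfl fun g _ => ?_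
      simp only
      rw [← mat_apply' H a b s t (g * u) u, mul_inv_cancel_right]
    · rintro ⟨s, g⟩ _ ⟨s', g'⟩ _ he
      simp only [Prod.mk.injEq, mul_left_inj] at he
      obtain ⟨h1, h2⟩ := he
      subst h1 h2
      rfl
  · rintro ⟨x, s⟩ hp
    have h0 : incid h (act x⁻¹ s.1) (act u⁻¹ t.1) = 0 := by
      by_contra hc
      apply hp
      rw [Finset.mem_image]
      refine ⟨⟨s, x * u⁻¹⟩, ?_, ?_⟩
      · rw [Finset.mem_sigma]
        refine ⟨Finset.mem_univ _, ?_⟩
        rw [Finsupp.mem_support_iff, mat_apply']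
        exact hc
      · simp only [inv_mul_cancel_right]
    simp only
    rw [h0, zero_mul]

end oper

section cells

variable {G V Ω : Type} [Group G] [MulAction G V] [LinearOrder Ω] [MulAction G Ω]
variable {X : Complex V} {h : V → Ω} {R : Finset V}

variable {k : ℕ} [Fintype (KK X h R k)] [Fintype (KK X h R (k + 1))] [Fintype (KK X h R (k + 2))]

theorem T_cell (H : Heights G X h R) (f : lp (fun _ : Cell X k => ℂ) 2) (u : G)
    (t : KK X h R k) :
    op (mat H (k + 1) k) (pull (cellEquiv H k) f) (u, t) =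
      ∑' c : Cell X k, incid h c.1 (act u⁻¹ t.1) * f c := by
  rw [T_apply, ← (cellEquiv H k).tsum_eq]
  rfl

theorem T_inner (H : Heights G X h R) (f : lp (fun _ : Cell X k => ℂ) 2) (x : G)
    (r : KK X h R (k + 2)) :
    ⟪op (mat H (k + 2) (k + 1)) (dl (x, r)), pull (cellEquiv H k) f⟫_ℂ =
      ∑' c : Cell X k, incid h (act x⁻¹ r.1) c.1 * f c := by
  rw [lp.inner_eq_tsum, ← (cellEquiv H k).tsum_eq]
  refine tsum_congr fun p => ?_
  obtain ⟨u, s⟩ := p
  rw [T_dl, pull_apply, cellEquiv_apply]
  simp only [RCLike.inner_apply, incid_conj]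
  ring

theorem incid_card {s t : Finset V} (hc : t.card + 1 ≠ s.card) : incid h s t = 0 := by
  by_contra h0
  exact hc (incid_ne h0).2

theorem pull_harmonic (H : Heights G X h R) (f : lp (fun _ : Cell X k => ℂ) 2) :
    f ∈ harmonic X h k ↔
      pull (cellEquiv H k) f ∈ harm (op (mat H (k + 1) k)) (op (mat H (k + 2) (k + 1))) := by
  unfold harm
  rw [Submodule.mem_inf]
  apply and_congr
  · constructor
    · intro h1
      change op (mat H (k + 1) k) (pull (cellEquiv H k) f) = 0
      ext ⟨u, t⟩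
      rw [T_cell, h1 _ (H.inv _ _ t.2.1)]
      rfl
    · intro h1 t ht
      have h1' : op (mat H (k + 1) k) (pull (cellEquiv H k) f) = 0 := h1
      by_cases hc : t.card = k
      · obtain ⟨x, t', hx⟩ := exists_rep H ht
        have h2 : ∃ t'' : KK X h R k, act x⁻¹ t''.1 = t :=
          ⟨⟨t'.1, t'.2.1, t'.2.2.1.trans hc, t'.2.2.2⟩, hx⟩
        obtain ⟨t'', hx'⟩ := h2
        rw [← hx', ← T_cell H f x t'', h1']
        rfl
      · convert tsum_zero with c
        rw [incid_card, zero_mul]
        rw [c.2.2]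
        omega
  · constructor
    · intro h1
      rw [Submodule.mem_orthogonal]
      rintro _ ⟨F, rfl⟩
      have h2 : (innerSL ℂ (pull (cellEquiv H k) f)).comp (op (mat H (k + 2) (k + 1))) = 0 := by
        apply clm_ext
        rintro ⟨x, r⟩
        rw [ContinuousLinearMap.comp_apply, zero_apply]
        change ⟪pull (cellEquiv H k) f, op (mat H (k + 2) (k + 1)) (dl (x, r))⟫_ℂ = 0
        rw [← inner_conj_symm, T_inner, h1 _ (H.inv _ _ r.2.1), map_zero]
      have h3 := congrArg (fun A : EE G (KK X h R (k + 2)) →L[ℂ] ℂ => A F) h2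
      rw [ContinuousLinearMap.comp_apply, zero_apply] at h3
      have h4 : ⟪pull (cellEquiv H k) f, op (mat H (k + 2) (k + 1)) F⟫_ℂ = 0 := h3
      rw [← inner_conj_symm]
      change (starRingEnd ℂ) ⟪pull (cellEquiv H k) f, op (mat H (k + 2) (k + 1)) F⟫_ℂ = 0
      rw [h4, map_zero]
    · intro h1 r hr
      by_cases hc : r.card = k + 2
      · obtain ⟨x, r', hx⟩ := exists_rep H hr
        have h2 : ∃ r'' : KK X h R (k + 2), act x⁻¹ r''.1 = r :=
          ⟨⟨r'.1, r'.2.1, r'.2.2.1.trans hc, r'.2.2.2⟩, hx⟩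
        obtain ⟨r'', hx'⟩ := h2
        rw [← hx', ← T_inner H f x r'']
        rw [Submodule.mem_orthogonal] at h1
        exact h1 _ ⟨dl (x, r''), rfl⟩
      · convert tsum_zero with c
        rw [incid_card, zero_mul]
        rw [c.2.2]
        omega

theorem image_harmonic (H : Heights G X h R) :
    pull (cellEquiv H k) '' (harmonic X h k) =
      (harm (op (mat H (k + 1) k)) (op (mat H (k + 2) (k + 1))) :
        Set (EE G (KK X h R (k + 1)))) := by
  ext F
  constructor
  · rintro ⟨f, hf, rfl⟩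
    exact (pull_harmonic H f).1 hf
  · intro hF
    obtain ⟨f, rfl⟩ := pull_surj (cellEquiv H k) F
    exact ⟨f, (pull_harmonic H f).2 hF, rfl⟩

/-- the boundary of the boundary -/
theorem T_T (H : Heights G X h R) (F : EE G (KK X h R (k + 2))) :
    op (mat H (k + 1) k) (op (mat H (k + 2) (k + 1)) F) = 0 := by
  have h2 : (op (mat H (k + 1) k)).comp (op (mat H (k + 2) (k + 1))) = 0 := by
    apply clm_ext
    rintro ⟨x, r⟩
    rw [ContinuousLinearMap.comp_apply, zero_apply]
    ext ⟨u, t⟩
    rw [T_apply]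
    have h3 : ∀ p : G × KK X h R (k + 1), incid h (act p.1⁻¹ p.2.1) (act u⁻¹ t.1) *
        op (mat H (k + 2) (k + 1)) (dl (x, r)) p =
        (fun c : Cell X k => incid h c.1 (act u⁻¹ t.1) * incid h (act x⁻¹ r.1) c.1)
          (cellEquiv H k p) := by
      rintro ⟨y, s⟩
      rw [T_dl]
      rfl
    have h4 := (cellEquiv H k).tsum_eq
      (fun c : Cell X k => incid h c.1 (act u⁻¹ t.1) * incid h (act x⁻¹ r.1) c.1)
    refine (tsum_congr h3).trans (h4.trans ?_)
    change _ = (0 : ℂ)
    set r' := act x⁻¹ r.1 with hr'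
    set t' := act u⁻¹ t.1
    have hrf : r' ∈ X.faces := H.inv _ _ r.2.1
    have hrc : r'.card = k + 2 := by rw [hr', card_act, r.2.2.1]
    have hcell : ∀ w ∈ r', r'.erase w ∈ X.faces ∧ (r'.erase w).card = k + 1 := by
      intro w hw
      have h4 : (r'.erase w).card = k + 1 := by
        rw [Finset.card_erase_of_mem hw, hrc]
        rfl
      refine ⟨X.down _ hrf _ (Finset.erase_subset _ _) ?_, h4⟩
      rw [← Finset.card_pos, h4]
      omega
    rw [tsum_eq_sum (s := r'.attach.image fun w => (⟨r'.erase w.1, hcell w.1 w.2⟩ : Cell X k))]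
    · rw [Finset.sum_image]
      · simp only
        rw [Finset.sum_attach r' (fun w => incid h (r'.erase w) t' * incid h r' (r'.erase w))]
        have h5 := bdry_bdry (fun u hu v hv he => H.generic r' hrf u hu v hv he) t'
        rw [sum_erase r' (fun s => incid h s t')] at h5
        rw [Finset.sum_congr rfl fun w _ => mul_comm (incid h (r'.erase w) t') _, h5]
      · rintro ⟨w, hw⟩ _ ⟨w', hw'⟩ _ he
        have h5 : r'.erase w = r'.erase w' := congrArg Subtype.val he
        have h6 : w' ∉ r'.erase w := by rw [h5]; exact Finset.notMem_erase _ _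
        rw [Subtype.mk.injEq]
        by_contra hc
        exact h6 (Finset.mem_erase.2 ⟨Ne.symm hc, hw'⟩)
    · rintro ⟨c, hc⟩ hcn
      have h5 : incid h r' c = 0 := by
        by_contra h0
        unfold incid at h0
        obtain ⟨w, hw, h1⟩ := Finset.exists_ne_zero_of_sum_ne_zero h0
        have h7 : r'.erase w = c := by
          by_contra h8
          exact h1 (if_neg h8)
        apply hcn
        rw [Finset.mem_image]
        exact ⟨⟨w, hw⟩, Finset.mem_attach _ _, Subtype.ext h7⟩
      simp only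
      rw [h5, mul_zero]
  have h3 := congrArg (fun A : EE G (KK X h R (k + 2)) →L[ℂ] EE G (KK X h R k) => A F) h2
  exact h3

end cells

end Pool.Agent.W7h60.OM
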