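import Pool.Agent.W7h60.OM.Gen2
import Pool.Agent.W907.SG.Defs

set_option autoImplicit false
set_option linter.unusedSectionVars false

/-! Right-angled Coxeter groups: heights from states. -/

namespace Pool.Agent.W7h60.OM.Racg

open Classical Pool.Agent.W907.SG

section grp

variable {V : Type} {G : SimpleGraph V}

/-- the generators -/
noncomputable abbrev gen (G : SimpleGraph V) (v : V) : W G := (cox G).simple v

theorem gen_sq (v : V) : gen G v * gen G v = 1 :=
  (cox G).toCoxeterSystem.simple_mul_simple_self v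

theorem gen_inv (v : V) : (gen G v)⁻¹ = gen G v := inv_eq_of_mul_eq_one_left (gen_sq v)

theorem cox_adj {u v : V} (h : G.Adj u v) : (cox G).M u v = 2 := by
  simp [cox, h.ne, h]

theorem cox_non {u v : V} (h : ¬ G.Adj u v) (hne : u ≠ v) : (cox G).M u v = 0 := by
  simp [cox, h, hne]

theorem cox_self (v : V) : (cox G).M v v = 1 := by
  simp [cox]

theorem comm_of_pow {Y : Type} [Group Y] {a b : Y} (ha : a * a = 1) (hb : b * b = 1)
    (h : (a * b) ^ 2 = 1) : a * b = b * a := by
  have h1 : a * b * (a * b) = 1 := by rw [← pow_two]; exact h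
  have ha' : a⁻¹ = a := inv_eq_of_mul_eq_one_left ha
  have hb' : b⁻¹ = b := inv_eq_of_mul_eq_one_left hb
  have h2 := eq_inv_of_mul_eq_one_left h1
  rw [mul_inv_rev, ha', hb'] at h2
  exact h2

theorem gen_comm {u v : V} (h : G.Adj u v) : gen G u * gen G v = gen G v * gen G u := by
  apply comm_of_pow (gen_sq u) (gen_sq v)
  have h1 := (cox G).toCoxeterSystem.simple_mul_simple_pow u v
  have h2 : (cox G) u v = 2 := cox_adj h
  rw [h2] at h1
  exact h1

theorem liftable {Y : Type} (f : V → Function.End Y) (hsq : ∀ v, f v * f v = 1)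
    (hc : ∀ u v, G.Adj u v → f u * f v = f v * f u) : (cox G).IsLiftable f := by
  intro u v
  by_cases h : u = v
  · subst h
    have h2 : (cox G) u u = 1 := cox_self u
    rw [h2, pow_one, hsq]
  · by_cases ha : G.Adj u v
    · have h2 : (cox G) u v = 2 := cox_adj ha
      rw [h2, pow_two]
      have e : f u * f v * (f u * f v) = f u * f v * (f v * f u) :=
        congrArg (fun z => f u * f v * z) (hc u v ha)
      rw [e, mul_assoc, ← mul_assoc (f v), hsq, one_mul, hsq]
    · have h2 : (cox G) u v = 0 := cox_non ha h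
      rw [h2, pow_zero]

/-- the action on a set with commuting involutions -/
noncomputable def rep {Y : Type} (f : V → Function.End Y) (hsq : ∀ v, f v * f v = 1)
    (hc : ∀ u v, G.Adj u v → f u * f v = f v * f u) : W G →* Function.End Y :=
  (cox G).toCoxeterSystem.lift ⟨f, liftable f hsq hc⟩

theorem rep_gen {Y : Type} (f : V → Function.End Y) (hsq : ∀ v, f v * f v = 1)
    (hc : ∀ u v, G.Adj u v → f u * f v = f v * f u) (v : V) : rep f hsq hc (gen G v) = f v :=
  (cox G).toCoxeterSystem.lift_apply_simple (liftable f hsq hc) v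

theorem gen_ne (w : W G) (v : V) (st : W G → Finset V)
    (hf : v ∈ st (w * gen G v) ↔ v ∉ st w) : w * gen G v ≠ w := by
  intro h
  rw [h] at hf
  by_cases hv : v ∈ st w
  · exact (hf.1 hv) hv
  · exact hv (hf.2 hv)

end grp

/-- States: for each vertex `w` of the Davis complex the set of the descending directions. -/
structure St {V : Type} (G : SimpleGraph V) (K : Subgroup (W G)) (st : W G → Finset V) : Prop where
  flip : ∀ (w : W G) (v : V), v ∈ st (w * gen G v) ↔ v ∉ st w
  par : ∀ (w : W G) (u v : V), G.Adj u v → (u ∈ st (w * gen G v) ↔ u ∈ st w)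
  inv : ∀ k ∈ K, ∀ w, st (k * w) = st w

section height

variable {V : Type} {G : SimpleGraph V} {K : Subgroup (W G)} {st : W G → Finset V}

/-- the difference of the heights -/
noncomputable def eps (st : W G → Finset V) (w : W G) (v : V) : ℤ := if v ∈ st w then -1 else 1

theorem eps_flip (S : St G K st) (w : W G) (v : V) : eps st (w * gen G v) v = - eps st w v := by
  unfold eps
  by_cases h : v ∈ st w
  · rw [if_pos h, if_neg (fun h' => (S.flip w v).1 h' h), neg_neg]
  · rw [if_neg h, if_pos ((S.flip w v).2 h)]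

theorem eps_par (S : St G K st) (w : W G) (u v : V) (h : G.Adj u v) :
    eps st (w * gen G v) u = eps st w u := by
  unfold eps
  rw [if_congr (S.par w u v h) rfl rfl]

theorem eps_inv (S : St G K st) {k : W G} (hk : k ∈ K) (w : W G) (v : V) :
    eps st (k * w) v = eps st w v := by
  unfold eps
  rw [S.inv k hk]

/-- the generators acting on the group with heights -/
noncomputable def fv (st : W G → Finset V) (v : V) : Function.End (W G × ℤ) :=
  fun p => (p.1 * gen G v, p.2 + eps st p.1 v)

theorem fv_sq (S : St G K st) (v : V) : fv st v * fv st v = 1 := by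
  funext p
  change (p.1 * gen G v * gen G v, p.2 + eps st p.1 v + eps st (p.1 * gen G v) v) = p
  rw [mul_assoc, gen_sq, mul_one, eps_flip S, add_neg_cancel_right]

theorem fv_comm (S : St G K st) (u v : V) (h : G.Adj u v) :
    fv st u * fv st v = fv st v * fv st u := by
  funext p
  change (p.1 * gen G v * gen G u, p.2 + eps st p.1 v + eps st (p.1 * gen G v) u) =
    (p.1 * gen G u * gen G v, p.2 + eps st p.1 u + eps st (p.1 * gen G u) v)
  rw [mul_assoc, mul_assoc, gen_comm h, eps_par S p.1 u v h, eps_par S p.1 v u h.symm]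
  congr 1
  ring

/-- the action on the group with heights -/
noncomputable def act (S : St G K st) : W G →* Function.End (W G × ℤ) :=
  rep (fv st) (fv_sq S) (fv_comm S)

theorem act_gen (S : St G K st) (v : V) : act S (gen G v) = fv st v := rep_gen _ _ _ v

theorem act_fst (S : St G K st) (g : W G) (p : W G × ℤ) : (act S g p).1 = p.1 * g⁻¹ := by
  revert p
  apply (cox G).toCoxeterSystem.simple_induction (p := fun g => ∀ p : W G × ℤ,
    (act S g p).1 = p.1 * g⁻¹) g
  · intro v p
    change (act S (gen G v) p).1 = p.1 * (gen G v)⁻¹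
    rw [act_gen, gen_inv]
    rfl
  · intro p
    rw [map_one, inv_one, mul_one]
    rfl
  · intro g h hg hh p
    rw [map_mul, mul_inv_rev, ← mul_assoc, ← hh p, ← hg]
    rfl

theorem act_tr (S : St G K st) {k : W G} (hk : k ∈ K) (m : ℤ) (g : W G) (p : W G × ℤ) :
    act S g (k * p.1, p.2 + m) = (k * (act S g p).1, (act S g p).2 + m) := by
  revert p
  apply (cox G).toCoxeterSystem.simple_induction (p := fun g => ∀ p : W G × ℤ,
    act S g (k * p.1, p.2 + m) = (k * (act S g p).1, (act S g p).2 + m)) g
  · intro v p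
    change act S (gen G v) (k * p.1, p.2 + m) =
      (k * (act S (gen G v) p).1, (act S (gen G v) p).2 + m)
    rw [act_gen]
    change (k * p.1 * gen G v, p.2 + m + eps st (k * p.1) v) =
      (k * (p.1 * gen G v), p.2 + eps st p.1 v + m)
    rw [eps_inv S hk, mul_assoc]
    congr 1
    ring
  · intro p
    rw [map_one]
    rfl
  · intro g h hg hh p
    rw [map_mul]
    change act S g (act S h (k * p.1, p.2 + m)) =
      (k * (act S g (act S h p)).1, (act S g (act S h p)).2 + m)
    rw [hh p, hg]

/-- the height -/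
noncomputable def ht (S : St G K st) (w : W G) : ℤ := (act S w⁻¹ (1, 0)).2

theorem act_ht (S : St G K st) (w : W G) : act S w⁻¹ (1, 0) = (w, ht S w) := by
  apply Prod.ext
  · rw [act_fst, inv_inv, one_mul]
  · rfl

theorem ht_gen (S : St G K st) (w : W G) (v : V) :
    ht S (w * gen G v) = ht S w + eps st w v := by
  unfold ht
  rw [mul_inv_rev, gen_inv, map_mul, act_gen]
  change (fv st v (act S w⁻¹ (1, 0))).2 = _
  rw [act_ht]
  rfl

theorem ht_mul (S : St G K st) {k : W G} (hk : k ∈ K) (w : W G) :
    ht S (k * w) = ht S w + ht S k := by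
  have h1 : act S (k * w)⁻¹ (1, 0) = act S w⁻¹ (act S k⁻¹ (1, 0)) := by
    rw [mul_inv_rev, map_mul]
    rfl
  have h2 := act_tr S hk (ht S k) w⁻¹ (1, 0)
  rw [mul_one, zero_add] at h2
  unfold ht
  rw [h1, act_ht S k, h2]

theorem ht_one (S : St G K st) : ht S 1 = 0 := by
  unfold ht
  rw [inv_one, map_one]
  rfl

/-- the action of `K` on the integers -/
@[reducible] noncomputable def hact (S : St G K st) : MulAction K ℤ where
  smul k n := n + ht S k
  one_smul n := by
    change n + ht S ((1 : K) : W G) = n
    rw [Subgroup.coe_one, ht_one, add_zero]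
  mul_smul k l n := by
    change n + ht S ((k * l : K) : W G) = n + ht S l + ht S k
    rw [Subgroup.coe_mul, ht_mul S k.2]
    ring

/-- representatives of the cosets -/
structure Reps (K : Subgroup (W G)) (R : Finset (W G)) : Prop where
  cover : ∀ w : W G, ∃ r ∈ R, ∃ k ∈ K, k * r = w
  unique : ∀ r ∈ R, ∀ r' ∈ R, ∀ k ∈ K, k * r = r' → r = r'

theorem base (S : St G K st) {R : Finset (W G)} (hR : Reps K R) :
    @Gen.Base K (W G) ℤ _ _ _ (hact S) (ht S) R := by
  let _ := hact S
  refine ⟨?_, ?_, ?_, ?_, ?_⟩
  · intro k w h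
    have h' : (k : W G) * w = w := h
    exact Subtype.ext (by rw [Subgroup.coe_one]; exact mul_eq_right.1 h')
  · intro w
    obtain ⟨r, hr, k, hk, h⟩ := hR.cover w
    exact ⟨r, hr, ⟨k, hk⟩, h⟩
  · intro r hr r' hr' k h
    exact hR.unique r hr r' hr' k k.2 h
  · intro k a b h
    change a + ht S k ≤ b + ht S k
    omega
  · intro k w
    change ht S (k * w) = ht S w + ht S k
    exact ht_mul S k.2 w

end height

end Pool.Agent.W7h60.OM.Racg
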