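import Pool.Agent.W7h60.OM.Racg1

set_option autoImplicit false
set_option linter.unusedSectionVars false

/-! Right-angled Coxeter groups: the cubes with their top corners. -/

namespace Pool.Agent.W7h60.OM.Racg

open Classical Pool.Agent.W907.SG

/-- the cliques with `i` vertices -/
abbrev Cl {V : Type} (G : SimpleGraph V) (i : ℕ) : Type :=
  {T : Finset V // G.IsClique (T : Set V) ∧ T.card = i}

section cells

variable {V : Type} [Fintype V] [LinearOrder V] {G : SimpleGraph V} {K : Subgroup (W G)}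
variable {st : W G → Finset V}

/-- the incidence numbers of the simplices -/
noncomputable def inc (S T : Finset V) : ℂ := ∑ t ∈ S, if S.erase t = T then (sg t T : ℂ) else 0

/-- the cubes with `i` directions, given by their top corners -/
abbrev TC (G : SimpleGraph V) (st : W G → Finset V) (i : ℕ) : Type :=
  {c : W G × Cl G i // c.2.1 ⊆ st c.1}

/-- the action on the cubes -/
@[reducible] noncomputable def tact (S : St G K st) (i : ℕ) : MulAction K (TC G st i) where
  smul k c := ⟨((k : W G) * c.1.1, c.1.2), by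
    change c.1.2.1 ⊆ st (k * c.1.1)
    rw [S.inv k k.2]
    exact c.2⟩
  one_smul c := Subtype.ext (Prod.ext (one_mul c.1.1) rfl)
  mul_smul k l c := Subtype.ext (Prod.ext (mul_assoc (k : W G) l c.1.1) rfl)

/-- the top corner -/
def top {i : ℕ} (c : TC G st i) : W G := c.1.1

/-- the incidence numbers of the cubes -/
noncomputable def io {i j : ℕ} (c : TC G st i) (d : TC G st j) : ℂ :=
  ∑ t ∈ c.1.2.1, if c.1.2.1.erase t = d.1.2.1 then
    (sg t d.1.2.1 : ℂ) * ((if c.1.1 = d.1.1 then 1 else 0) -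
      (if c.1.1 * gen G t = d.1.1 then 1 else 0)) else 0

theorem fibT (S : St G K st) (i : ℕ) :
    @Gen.Fib K (W G) (TC G st i) _ _ (tact S i) top := by
  let _ := tact S i
  refine ⟨fun k c => rfl, fun w => ?_⟩
  have h1 : (Set.univ : Set (Cl G i)).Finite := Set.toFinite _
  have h2 : (({w} : Set (W G)) ×ˢ (Set.univ : Set (Cl G i))).Finite :=
    (Set.finite_singleton w).prod h1
  refine Set.Finite.subset (h2.preimage (f := Subtype.val) Subtype.val_injective.injOn) ?_
  intro c hc
  exact ⟨hc, trivial⟩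

theorem io_ne {i j : ℕ} {c : TC G st i} {d : TC G st j} (h : io c d ≠ 0) :
    d.1.1 = c.1.1 ∨ ∃ t ∈ c.1.2.1, c.1.1 * gen G t = d.1.1 := by
  by_contra hc
  push Not at hc
  apply h
  refine Finset.sum_eq_zero fun t ht => ?_
  have a1 : ¬ (c.1.1 = d.1.1) := fun h' => hc.1 h'.symm
  have a2 : ¬ (c.1.1 * gen G t = d.1.1) := hc.2 t ht
  simp only [a1, a2, if_false, sub_zero, mul_zero, ite_self]

theorem incT (S : St G K st) (i j : ℕ) :
    @Gen.Inc K (W G) ℤ (TC G st i) (TC G st j) _ _ (tact S i) (tact S j) _ (ht S) top top io := by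
  let _ := tact S i
  let _ := tact S j
  refine ⟨?_, ?_, ?_, ?_⟩
  · intro k c d
    change (∑ t ∈ c.1.2.1, if c.1.2.1.erase t = d.1.2.1 then
      (sg t d.1.2.1 : ℂ) * ((if (k : W G) * c.1.1 = k * d.1.1 then 1 else 0) -
      (if (k : W G) * c.1.1 * gen G t = k * d.1.1 then 1 else 0)) else 0) = io c d
    unfold io
    refine Finset.sum_congr rfl fun t _ => ?_
    rw [if_congr (mul_right_inj (k : W G)) rfl rfl]
    rw [mul_assoc, if_congr (mul_right_inj (k : W G)) rfl rfl]
  · intro c
    have h1 : (Set.univ : Set (Cl G j)).Finite := Set.toFinite _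
    have h2 : (insert c.1.1 ((fun t => c.1.1 * gen G t) '' (c.1.2.1 : Set V))).Finite :=
      ((Finset.finite_toSet _).image _).insert _
    refine Set.Finite.subset ((h2.prod h1).preimage (f := Subtype.val)
      Subtype.val_injective.injOn) ?_
    intro d hd
    refine ⟨?_, trivial⟩
    rcases io_ne hd with h | ⟨t, ht, h⟩
    · exact Or.inl h
    · exact Or.inr ⟨t, ht, h⟩
  · intro c d
    unfold io
    rw [map_sum]
    refine Finset.sum_congr rfl fun t _ => ?_
    split_ifs <;> simp
  · intro c d hd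
    rcases io_ne hd with h | ⟨t, htt, h⟩
    · exact Or.inl h
    · right
      change ht S d.1.1 < ht S c.1.1
      rw [← h, ht_gen]
      unfold eps
      rw [if_pos (c.2 htt)]
      omega

/-- the coboundary of functions on all pairs -/
noncomputable def cob (F : W G → Finset V → ℂ) (w : W G) (T : Finset V) : ℂ :=
  ∑ t ∈ T, (sg t (T.erase t) : ℂ) * (F w (T.erase t) - F (w * gen G t) (T.erase t))

theorem cob_cob (F : W G → Finset V → ℂ) (w : W G) (T : Finset V)
    (hT : G.IsClique (T : Set V)) : cob (cob F) w T = 0 := by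
  have e1 : cob (cob F) w T = ∑ p ∈ T.sigma fun t => T.erase t,
      (sg p.1 (T.erase p.1) : ℂ) * (sg p.2 ((T.erase p.1).erase p.2) : ℂ) *
        ((F w ((T.erase p.1).erase p.2) - F (w * gen G p.2) ((T.erase p.1).erase p.2)) -
        (F (w * gen G p.1) ((T.erase p.1).erase p.2) -
          F (w * gen G p.1 * gen G p.2) ((T.erase p.1).erase p.2))) := by
    rw [Finset.sum_sigma]
    unfold cob
    refine Finset.sum_congr rfl fun t _ => ?_
    rw [← Finset.sum_sub_distrib, Finset.mul_sum]
    refine Finset.sum_congr rfl fun u _ => ?_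
    ring
  rw [e1]
  apply Finset.sum_involution (fun p _ => ⟨p.2, p.1⟩)
  · rintro ⟨t, u⟩ hp
    simp only [Finset.mem_sigma, Finset.mem_erase] at hp
    obtain ⟨ht, hne, hu⟩ := hp
    simp only
    have e2 : (T.erase u).erase t = (T.erase t).erase u := Finset.erase_right_comm
    have hadj : G.Adj t u := hT ht hu (Ne.symm hne)
    have e3 : w * gen G u * gen G t = w * gen G t * gen G u := by
      rw [mul_assoc, mul_assoc, gen_comm hadj]
    rw [e2, e3]
    have h1 : insert u ((T.erase t).erase u) = T.erase t :=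
      Finset.insert_erase (Finset.mem_erase.2 ⟨hne, hu⟩)
    have h2 : insert t ((T.erase t).erase u) = T.erase u := by
      rw [← e2]
      exact Finset.insert_erase (Finset.mem_erase.2 ⟨Ne.symm hne, ht⟩)
    have h3 := sg_swap t u ((T.erase t).erase u) (Ne.symm hne)
      (fun h => (Finset.mem_erase.1 (Finset.mem_of_mem_erase h)).1 rfl)
      (fun h => (Finset.mem_erase.1 h).1 rfl)
    rw [h1, h2] at h3
    have h4 : (sg t (T.erase t) : ℂ) * (sg u ((T.erase t).erase u) : ℂ) =
        -((sg u (T.erase u) : ℂ) * (sg t ((T.erase t).erase u) : ℂ)) := by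
      exact_mod_cast congrArg (Int.cast : ℤ → ℂ) h3
    rw [h4]
    ring
  · rintro ⟨t, u⟩ hp _ hcon
    simp only [Finset.mem_sigma, Finset.mem_erase] at hp
    exact hp.2.1 (congrArg Sigma.fst hcon)
  · rintro ⟨t, u⟩ _
    rfl
  · rintro ⟨t, u⟩ hp
    simp only [Finset.mem_sigma, Finset.mem_erase] at hp ⊢
    exact ⟨hp.2.2, Ne.symm hp.2.1, hp.1⟩

theorem hasSum_pt {i : ℕ} (w : W G) (T : Finset V) (h1 : G.IsClique (T : Set V) ∧ T.card = i)
    (h2 : T ⊆ st w) (F : W G → Finset V → ℂ) :
    HasSum (fun e : TC G st i => if T = e.1.2.1 ∧ w = e.1.1 then F e.1.1 e.1.2.1 else 0)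
      (F w T) := by
  have h3 := hasSum_single (f := fun e : TC G st i =>
    if T = e.1.2.1 ∧ w = e.1.1 then F e.1.1 e.1.2.1 else 0) ⟨(w, ⟨T, h1⟩), h2⟩ (by
      intro e he
      refine if_neg ?_
      rintro ⟨hT, hw⟩
      apply he
      apply Subtype.ext
      apply Prod.ext
      · exact hw.symm
      · exact Subtype.ext hT.symm)
  simpa using h3

theorem clique_erase {T : Finset V} {i : ℕ} (h : G.IsClique (T : Set V) ∧ T.card = i + 1) {t : V}
    (ht : t ∈ T) : G.IsClique ((T.erase t : Finset V) : Set V) ∧ (T.erase t).card = i := by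
  refine ⟨h.1.subset ?_, ?_⟩
  · intro x hx
    exact Finset.mem_of_mem_erase hx
  · rw [Finset.card_erase_of_mem ht, h.2]
    rfl

theorem sub_gen (S : St G K st) {T : Finset V} {w : W G} (hT : G.IsClique (T : Set V))
    (h : T ⊆ st w) {t : V} (ht : t ∈ T) : T.erase t ⊆ st (w * gen G t) := by
  intro u hu
  obtain ⟨h1, h2⟩ := Finset.mem_erase.1 hu
  exact (S.par w u t (hT h2 ht h1)).2 (h h2)

theorem hasSum_io (S : St G K st) {i : ℕ} (c : TC G st (i + 1)) (F : W G → Finset V → ℂ) :
    HasSum (fun e : TC G st i => F e.1.1 e.1.2.1 * io c e) (cob F c.1.1 c.1.2.1) := by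
  have e1 : (fun e : TC G st i => F e.1.1 e.1.2.1 * io c e) = fun e : TC G st i =>
      ∑ t ∈ c.1.2.1, (sg t (c.1.2.1.erase t) : ℂ) *
        ((if c.1.2.1.erase t = e.1.2.1 ∧ c.1.1 = e.1.1 then F e.1.1 e.1.2.1 else 0) -
        (if c.1.2.1.erase t = e.1.2.1 ∧ c.1.1 * gen G t = e.1.1 then F e.1.1 e.1.2.1 else 0)) := by
    funext e
    unfold io
    rw [Finset.mul_sum]
    refine Finset.sum_congr rfl fun t _ => ?_
    by_cases h : c.1.2.1.erase t = e.1.2.1
    · rw [if_pos h]
      simp only [h, true_and]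
      split_ifs <;> ring
    · rw [if_neg h, if_neg (fun h' => h h'.1), if_neg (fun h' => h h'.1)]
      ring
  rw [e1]
  unfold cob
  apply hasSum_sum
  intro t ht
  refine HasSum.mul_left _ (HasSum.sub ?_ ?_)
  · exact hasSum_pt _ _ (clique_erase c.1.2.2 ht)
      ((Finset.erase_subset _ _).trans c.2) F
  · exact hasSum_pt _ _ (clique_erase c.1.2.2 ht) (sub_gen S c.1.2.2.1 c.2 ht) F

/-- the boundary of the boundary vanishes -/
theorem hddT (S : St G K st) (i : ℕ) (c : TC G st (i + 1)) (d : TC G st (i - 1)) :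
    ∑' e : TC G st i, io e d * io c e = 0 := by
  set B : W G → Finset V → ℂ := fun w T => if T = d.1.2.1 ∧ w = d.1.1 then 1 else 0 with hB
  have e1 : ∀ e : TC G st i, io e d = cob B e.1.1 e.1.2.1 := by
    intro e
    unfold io cob
    refine Finset.sum_congr rfl fun t _ => ?_
    by_cases h : e.1.2.1.erase t = d.1.2.1
    · rw [if_pos h, hB]
      simp only [h, true_and]
    · rw [if_neg h, hB]
      simp only
      rw [if_neg (fun h' => h h'.1), if_neg (fun h' => h h'.1), sub_zero, mul_zero]
  have e2 := hasSum_io S c (cob B)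
  simp only [e1]
  rw [e2.tsum_eq]
  exact cob_cob B _ _ c.1.2.2.1

end cells

end Pool.Agent.W7h60.OM.Racg
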