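import Pool.Agent.W7h60.OM.Racg2

set_option autoImplicit false
set_option linter.unusedSectionVars false

open scoped InnerProductSpace InnerProduct ENNReal

/-! Right-angled Coxeter groups: the inequality for the cubes with their top corners. -/

namespace Pool.Agent.W7h60.OM.Racg

open Classical Pool.Agent.W907.SG
open Pool.Agent.W649.ZL Pool.Agent.W7h60.LP Pool.Agent.W7h60.OM

theorem finrank_reindex {I I' J J' : Type} (e : I ≃ I') (e' : J ≃ J') (M : I → J → ℂ)
    (M' : I' → J' → ℂ) (h : ∀ i j, M i j = M' (e i) (e' j)) :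
    Module.finrank ℂ (Submodule.span ℂ (Set.range M)) =
      Module.finrank ℂ (Submodule.span ℂ (Set.range M')) := by
  have h1 : Submodule.span ℂ (Set.range M) = (Submodule.span ℂ (Set.range M')).map
      ((LinearEquiv.funCongrLeft ℂ ℂ e' : (J' → ℂ) ≃ₗ[ℂ] (J → ℂ)) : (J' → ℂ) →ₗ[ℂ] (J → ℂ)) := by
    rw [Submodule.map_span]
    congr 1
    ext f
    constructor
    · rintro ⟨i, rfl⟩
      refine ⟨M' (e i), ⟨e i, rfl⟩, ?_⟩
      funext j
      exact (h i j).symm
    · rintro ⟨_, ⟨i, rfl⟩, rfl⟩
      refine ⟨e.symm i, ?_⟩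
      funext j
      rw [h, e.apply_symm_apply]
      rfl
  rw [h1]
  exact LinearEquiv.finrank_map_eq _ _

section numbers

variable {V : Type} [Fintype V] [LinearOrder V] {G : SimpleGraph V} {K : Subgroup (W G)}
variable {st : W G → Finset V}

/-- the cliques in `A` with `i` vertices -/
abbrev CA (G : SimpleGraph V) (A : Finset V) (i : ℕ) : Type := {T : Cl G i // T.1 ⊆ A}

/-- the rank of the incidence matrix -/
noncomputable def rkA (G : SimpleGraph V) (A : Finset V) (i j : ℕ) : ℕ :=
  Module.finrank ℂ (Submodule.span ℂ (Set.range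
    fun (S : CA G A i) (T : CA G A j) => inc S.1.1 T.1.1))

/-- the dimension of the reduced homology in degree `i - 1` -/
noncomputable def rb (G : SimpleGraph V) (A : Finset V) (i : ℕ) : ℤ :=
  (Nat.card (CA G A i) : ℤ) - rkA G A i (i - 1) - rkA G A (i + 1) i

/-- the cubes with the given top corner -/
def eqDD (w : W G) (i : ℕ) : Gen.DD (top : TC G st i → W G) w ≃ CA G (st w) i where
  toFun c := ⟨c.1.1.2, (congrArg st c.2) ▸ c.1.2⟩
  invFun T := ⟨⟨(w, T.1), T.2⟩, rfl⟩
  left_inv := by
    rintro ⟨⟨⟨w', T⟩, h⟩, hw⟩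
    change w' = w at hw
    subst hw
    rfl
  right_inv T := rfl

theorem io_inc (S : St G K st) {i j : ℕ} (w : W G) (c : Gen.DD (top : TC G st i → W G) w)
    (d : Gen.DD (top : TC G st j → W G) w) : io c.1 d.1 = inc c.1.1.2.1 d.1.1.2.1 := by
  unfold io inc
  refine Finset.sum_congr rfl fun t ht => ?_
  have h1 : c.1.1.1 = d.1.1.1 := c.2.trans d.2.symm
  have h2 : ¬ (d.1.1.1 * gen G t = d.1.1.1) := gen_ne _ t st (S.flip _ t)
  rw [h1]
  simp only [h2, if_true, if_false, sub_zero, mul_one]

theorem rk_eqA (S : St G K st) (w : W G) (i j : ℕ) :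
    Gen.rk top top (io : TC G st i → TC G st j → ℂ) w = rkA G (st w) i j :=
  finrank_reindex (eqDD w i) (eqDD w j) _ _ (fun c d => io_inc S w c d)

end numbers

section inst

variable {V : Type} [Fintype V] [LinearOrder V] {G : SimpleGraph V} {K : Subgroup (W G)}
variable {st : W G → Finset V} [hS : Fact (St G K st)]

/-- the integers with the action by translations -/
def HZ (_ : Subgroup (W G)) (_ : W G → Finset V) : Type := ℤ

noncomputable instance : LinearOrder (HZ K st) := inferInstanceAs (LinearOrder ℤ)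

noncomputable instance : MulAction K (HZ K st) := hact hS.out

noncomputable instance (i : ℕ) : MulAction K (TC G st i) := tact hS.out i

/-- the height -/
noncomputable def htZ (K : Subgroup (W G)) (st : W G → Finset V) [hS : Fact (St G K st)] :
    W G → HZ K st := ht hS.out

variable {R : Finset (W G)}

theorem baseZ (hR : Reps K R) : Gen.Base K (htZ K st) R := base hS.out hR

theorem fibZ (i : ℕ) : Gen.Fib K (top : TC G st i → W G) := fibT hS.out i

theorem incZ (i j : ℕ) :
    Gen.Inc K (htZ K st) (top : TC G st i → W G) (top : TC G st j → W G) io :=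
  incT hS.out i j

theorem vd_top_le (hR : Reps K R) (i : ℕ)
    [Fintype (Gen.II R (top : TC G st (i + 1) → W G))]
    [Fintype (Gen.II R (top : TC G st i → W G))]
    [Fintype (Gen.II R (top : TC G st (i - 1) → W G))] :
    vd (harm (Gen.Top (baseZ (st := st) hR) (fibZ (i - 1)) (incZ i (i - 1)))
      (Gen.Top (baseZ (st := st) hR) (fibZ i) (incZ (i + 1) i))) ≤
      ∑ w : R, (rb G (st (w : W G)) i : ℝ) := by
  have h1 := Gen.vd_harmC_le (baseZ (st := st) hR) (fibZ (i + 1)) (fibZ i) (fibZ (i - 1))
    (incZ (i + 1) i) (incZ i (i - 1)) (fun c d => hddT hS.out i c d)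
  refine h1.trans (le_of_eq ?_)
  refine Finset.sum_congr rfl fun w _ => ?_
  rw [rk_eqA hS.out, rk_eqA hS.out, Nat.card_congr (eqDD (w : W G) i)]
  unfold rb
  push_cast
  rfl

end inst

section harmW

variable {V : Type} [Fintype V] [LinearOrder V] {G : SimpleGraph V}

/-- the conditions for the harmonic chains: `x (w, T)` is the coefficient of the cube `w W_T`, with the
orientation given by the corner `w` -/
def IsH (G : SimpleGraph V) (i : ℕ) (x : W G × Cl G i → ℂ) : Prop :=
  (∀ (w : W G) (T : Cl G i), ∀ t ∈ T.1, x (w * gen G t, T) = - x (w, T)) ∧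
  (∀ (w : W G) (S : Cl G (i - 1)), ∑ T : Cl G i, inc T.1 S.1 * x (w, T) = 0) ∧
  ∀ (w : W G) (U : Cl G (i + 1)), ∑ t ∈ U.1, ∑ T : Cl G i,
    (if U.1.erase t = T.1 then (sg t T.1 : ℂ) else 0) * (x (w, T) - x (w * gen G t, T)) = 0

/-- the `ℓ²` harmonic chains -/
def HarmW (G : SimpleGraph V) (i : ℕ) : Set (lp (fun _ : W G × Cl G i => ℂ) 2) :=
  {x | IsH G i x}

/-- the `ℓ²`-Betti number -/
noncomputable def b2 (G : SimpleGraph V) (i : ℕ) : ℝ :=
  ∑ T : Cl G i, (1 - (Metric.infDist (lp.single 2 ((1 : W G), T) (1 : ℂ) :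
    lp (fun _ : W G × Cl G i => ℂ) 2) (HarmW G i)) ^ 2)

variable {i : ℕ}

theorem IsH.add {x y : W G × Cl G i → ℂ} (hx : IsH G i x) (hy : IsH G i y) :
    IsH G i (fun p => x p + y p) := by
  refine ⟨fun w T t ht => ?_, fun w S => ?_, fun w U => ?_⟩
  · change x (w * gen G t, T) + y (w * gen G t, T) = -(x (w, T) + y (w, T))
    rw [hx.1 w T t ht, hy.1 w T t ht]
    ring
  · simp only [mul_add, Finset.sum_add_distrib, hx.2.1 w S, hy.2.1 w S, add_zero]
  · have e : ∀ t (T : Cl G i), (if U.1.erase t = T.1 then (sg t T.1 : ℂ) else 0) *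
        (x (w, T) + y (w, T) - (x (w * gen G t, T) + y (w * gen G t, T))) =
        (if U.1.erase t = T.1 then (sg t T.1 : ℂ) else 0) * (x (w, T) - x (w * gen G t, T)) +
        (if U.1.erase t = T.1 then (sg t T.1 : ℂ) else 0) * (y (w, T) - y (w * gen G t, T)) := by
      intro t T
      ring
    simp only [e, Finset.sum_add_distrib, hx.2.2 w U, hy.2.2 w U, add_zero]

theorem IsH.smul {x : W G × Cl G i → ℂ} (c : ℂ) (hx : IsH G i x) :
    IsH G i (fun p => c * x p) := by
  refine ⟨fun w T t ht => ?_, fun w S => ?_, fun w U => ?_⟩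
  · change c * x (w * gen G t, T) = -(c * x (w, T))
    rw [hx.1 w T t ht]
    ring
  · simp only [mul_left_comm _ c, ← Finset.mul_sum, hx.2.1 w S, mul_zero]
  · have e : ∀ t (T : Cl G i), (if U.1.erase t = T.1 then (sg t T.1 : ℂ) else 0) *
        (c * x (w, T) - c * x (w * gen G t, T)) =
        c * ((if U.1.erase t = T.1 then (sg t T.1 : ℂ) else 0) *
          (x (w, T) - x (w * gen G t, T))) := by
      intro t T
      ring
    simp only [e, ← Finset.mul_sum, hx.2.2 w U, mul_zero]

theorem IsH.zero : IsH G i (fun _ => 0) := by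
  refine ⟨fun w T t ht => ?_, fun w S => ?_, fun w U => ?_⟩
  · rw [neg_zero]
  · simp only [mul_zero, Finset.sum_const_zero]
  · simp only [sub_zero, mul_zero, Finset.sum_const_zero]

/-- translations -/
theorem IsH.tr {x : W G × Cl G i → ℂ} (hx : IsH G i x) (g : W G) :
    IsH G i (fun p => x (g * p.1, p.2)) := by
  refine ⟨fun w T t ht => ?_, fun w S => ?_, fun w U => ?_⟩
  · have h := hx.1 (g * w) T t ht
    rw [mul_assoc] at h
    exact h
  · exact hx.2.1 (g * w) S
  · have h := hx.2.2 (g * w) U
    simp only [mul_assoc] at h ⊢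
    exact h

theorem IsH.closed {A : Type*} [TopologicalSpace A] (f : A → W G × Cl G i → ℂ)
    (hf : ∀ p, Continuous fun a => f a p) : IsClosed {a | IsH G i (f a)} := by
  unfold IsH
  refine IsClosed.inter ?_ (IsClosed.inter ?_ ?_)
  · change IsClosed {a | ∀ (w : W G) (T : Cl G i), ∀ t ∈ T.1,
      f a (w * gen G t, T) = - f a (w, T)}
    simp only [Set.ofPred_forall]
    exact isClosed_iInter fun w => isClosed_iInter fun T => isClosed_iInter fun t =>
      isClosed_iInter fun _ => isClosed_eq (hf _) (hf _).neg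
  · change IsClosed {a | ∀ (w : W G) (S : Cl G (i - 1)),
      ∑ T : Cl G i, inc T.1 S.1 * f a (w, T) = 0}
    simp only [Set.ofPred_forall]
    exact isClosed_iInter fun w => isClosed_iInter fun S =>
      isClosed_eq (continuous_finsetSum _ fun T _ => continuous_const.mul (hf _))
        continuous_const
  · change IsClosed {a | ∀ (w : W G) (U : Cl G (i + 1)), ∑ t ∈ U.1, ∑ T : Cl G i,
      (if U.1.erase t = T.1 then (sg t T.1 : ℂ) else 0) *
        (f a (w, T) - f a (w * gen G t, T)) = 0}
    simp only [Set.ofPred_forall]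
    exact isClosed_iInter fun w => isClosed_iInter fun S =>
      isClosed_eq (continuous_finsetSum _ fun t _ => continuous_finsetSum _ fun T _ =>
        continuous_const.mul ((hf _).sub (hf _))) continuous_const

/-- a harmonic chain vanishing at the top corners vanishes -/
theorem IsH.eq_zero {K : Subgroup (W G)} {st : W G → Finset V} (S : St G K st)
    {x : W G × Cl G i → ℂ} (hx : IsH G i x) (h0 : ∀ w (T : Cl G i), T.1 ⊆ st w → x (w, T) = 0)
    (w : W G) (T : Cl G i) : x (w, T) = 0 := by
  have key : ∀ (n : ℕ) (w : W G), (T.1 \ st w).card = n → x (w, T) = 0 := by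
    intro n
    induction n with
    | zero =>
      intro w hw
      apply h0
      rw [Finset.card_eq_zero, Finset.sdiff_eq_empty_iff_subset] at hw
      exact hw
    | succ n ih =>
      intro w hw
      obtain ⟨t, ht⟩ := Finset.card_pos.1 (by omega : 0 < (T.1 \ st w).card)
      rw [Finset.mem_sdiff] at ht
      have h1 : T.1 \ st (w * gen G t) = (T.1 \ st w).erase t := by
        ext u
        rw [Finset.mem_sdiff, Finset.mem_erase, Finset.mem_sdiff]
        by_cases hu : u = t
        · subst hu
          constructor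
          · rintro ⟨_, h2⟩
            exact absurd ((S.flip w u).2 ht.2) h2
          · rintro ⟨h2, _⟩
            exact absurd rfl h2
        · constructor
          · rintro ⟨h2, h3⟩
            exact ⟨hu, h2, fun h4 => h3 ((S.par w u t (T.2.1 h2 ht.1 hu)).2 h4)⟩
          · rintro ⟨_, h2, h3⟩
            exact ⟨h2, fun h4 => h3 ((S.par w u t (T.2.1 h2 ht.1 hu)).1 h4)⟩
      have h2 : (T.1 \ st (w * gen G t)).card = n := by
        rw [h1, Finset.card_erase_of_mem (Finset.mem_sdiff.2 ht), hw]
        rfl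
      have h3 := ih _ h2
      rw [hx.1 w T t ht.1] at h3
      exact neg_eq_zero.1 h3
  exact key _ w rfl

end harmW

end Pool.Agent.W7h60.OM.Racg
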