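import Pool.Agent.W7h60.OM.Racg3

set_option autoImplicit false
set_option linter.unusedSectionVars false

open scoped InnerProductSpace InnerProduct ENNReal

/-! Right-angled Coxeter groups: restriction of the harmonic chains to the top corners. -/

namespace Pool.Agent.W7h60.OM.Racg

open Classical Pool.Agent.W907.SG
open Pool.Agent.W649.ZL Pool.Agent.W7h60.LP Pool.Agent.W7h60.OM

section rst

variable {V : Type} [Fintype V] [LinearOrder V] {G : SimpleGraph V} {K : Subgroup (W G)}
variable {st : W G → Finset V} {i : ℕ}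

theorem memlp_rst (x : lp (fun _ : W G × Cl G i => ℂ) 2) :
    Memℓp (fun c : TC G st i => x c.1) 2 := by
  rw [memlp_two_iff]
  exact ((memlp_two_iff _).1 x.2).comp_injective Subtype.val_injective

/-- restriction to the top corners -/
noncomputable def rst (x : lp (fun _ : W G × Cl G i => ℂ) 2) :
    lp (fun _ : TC G st i => ℂ) 2 :=
  ⟨fun c => x c.1, memlp_rst x⟩

theorem rst_apply (x : lp (fun _ : W G × Cl G i => ℂ) 2) (c : TC G st i) : rst x c = x c.1 := rfl

theorem hasSum_at (w : W G) (T : Cl G i) (z : ℂ) :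
    HasSum (fun c : TC G st i => if c.1 = (w, T) then z else 0)
      (if T.1 ⊆ st w then z else 0) := by
  by_cases h : T.1 ⊆ st w
  · rw [if_pos h]
    have h3 := hasSum_single (f := fun c : TC G st i => if c.1 = (w, T) then z else 0)
      ⟨(w, T), h⟩ (by
        intro c hc
        refine if_neg ?_
        intro he
        exact hc (Subtype.ext he))
    simpa using h3
  · rw [if_neg h]
    have e : (fun c : TC G st i => if c.1 = (w, T) then z else 0) = fun _ => 0 := by
      funext c
      refine if_neg ?_
      intro he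
      apply h
      have h2 := c.2
      rw [he] at h2
      exact h2
    rw [e]
    exact hasSum_zero

theorem cocycle_top (S : St G K st) {x : W G × Cl G i → ℂ} (hx : IsH G i x)
    (c : TC G st (i + 1)) : ∑' e : TC G st i, io c e * x e.1 = 0 := by
  set F : W G → Finset V → ℂ := fun w T =>
    if h : G.IsClique (T : Set V) ∧ T.card = i then x (w, ⟨T, h⟩) else 0 with hF
  have h1 := (hasSum_io S c F).tsum_eq
  have h2 : ∀ e : TC G st i, io c e * x e.1 = F e.1.1 e.1.2.1 * io c e := by
    intro e
    have h3 : F e.1.1 e.1.2.1 = x e.1 := by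
      simp only [hF]
      rw [dif_pos e.1.2.2]
    rw [h3, mul_comm]
  simp only [h2]
  rw [h1]
  have h4 := hx.2.2 c.1.1 c.1.2
  rw [← h4]
  unfold cob
  refine Finset.sum_congr rfl fun t ht => ?_
  have h5 := clique_erase c.1.2.2 ht
  rw [Finset.sum_eq_single ⟨c.1.2.1.erase t, h5⟩]
  · rw [if_pos rfl]
    simp only [hF]
    rw [dif_pos h5, dif_pos h5]
  · intro T _ hT
    rw [if_neg, zero_mul]
    intro he
    exact hT (Subtype.ext he.symm)
  · intro h
    exact absurd (Finset.mem_univ _) h

theorem cycle_top (S : St G K st) {x : W G × Cl G i → ℂ} (hx : IsH G i x)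
    (d : TC G st (i - 1)) : ∑' c : TC G st i, io c d * x c.1 = 0 := by
  have e1 : (fun c : TC G st i => io c d * x c.1) = fun c : TC G st i =>
      ∑ T : Cl G i, ∑ t ∈ T.1, (if T.1.erase t = d.1.2.1 then (sg t d.1.2.1 : ℂ) else 0) *
        ((if c.1 = (d.1.1, T) then x (d.1.1, T) else 0) +
          (if c.1 = (d.1.1 * gen G t, T) then x (d.1.1, T) else 0)) := by
    funext c
    rw [Finset.sum_eq_single c.1.2]
    · unfold io
      rw [Finset.sum_mul]
      refine Finset.sum_congr rfl fun t ht => ?_
      by_cases h1 : c.1.2.1.erase t = d.1.2.1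
      · rw [if_pos h1, if_pos h1, mul_assoc]
        congr 1
        have h2 : (c.1 = (d.1.1, c.1.2)) ↔ c.1.1 = d.1.1 :=
          ⟨fun h => congrArg Prod.fst h, fun h => Prod.ext h rfl⟩
        have h3 : (c.1 = (d.1.1 * gen G t, c.1.2)) ↔ c.1.1 * gen G t = d.1.1 := by
          constructor
          · intro h
            have h4 : c.1.1 = d.1.1 * gen G t := congrArg Prod.fst h
            rw [h4, mul_assoc, gen_sq, mul_one]
          · intro h
            apply Prod.ext
            · change c.1.1 = d.1.1 * gen G t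
              rw [← h, mul_assoc, gen_sq, mul_one]
            · rfl
        rw [if_congr h2 rfl rfl, if_congr h3 rfl rfl, sub_mul]
        have h5 : (if c.1.1 = d.1.1 then (1 : ℂ) else 0) * x c.1 =
            if c.1.1 = d.1.1 then x (d.1.1, c.1.2) else 0 := by
          by_cases h : c.1.1 = d.1.1
          · rw [if_pos h, if_pos h, one_mul, ← h]
          · rw [if_neg h, if_neg h, zero_mul]
        have h6 : (if c.1.1 * gen G t = d.1.1 then (1 : ℂ) else 0) * x c.1 =
            -if c.1.1 * gen G t = d.1.1 then x (d.1.1, c.1.2) else 0 := by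
          by_cases h : c.1.1 * gen G t = d.1.1
          · rw [if_pos h, if_pos h, one_mul, ← h, hx.1 c.1.1 c.1.2 t ht, neg_neg]
          · rw [if_neg h, if_neg h, zero_mul, neg_zero]
        rw [h5, h6, sub_neg_eq_add]
      · rw [if_neg h1, if_neg h1, zero_mul, zero_mul]
    · intro T _ hT
      refine Finset.sum_eq_zero fun t _ => ?_
      rw [if_neg (fun h => hT (congrArg Prod.snd h).symm),
        if_neg (fun h => hT (congrArg Prod.snd h).symm), add_zero, mul_zero]
    · intro h
      exact absurd (Finset.mem_univ _) h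
  have e2 : HasSum (fun c : TC G st i => io c d * x c.1)
      (∑ T : Cl G i, ∑ t ∈ T.1, (if T.1.erase t = d.1.2.1 then (sg t d.1.2.1 : ℂ) else 0) *
        ((if T.1 ⊆ st d.1.1 then x (d.1.1, T) else 0) +
          (if T.1 ⊆ st (d.1.1 * gen G t) then x (d.1.1, T) else 0))) := by
    rw [e1]
    apply hasSum_sum
    intro T _
    apply hasSum_sum
    intro t _
    exact HasSum.mul_left _ (HasSum.add (hasSum_at _ _ _) (hasSum_at _ _ _))
  refine e2.tsum_eq.trans (Eq.trans ?_ (hx.2.1 d.1.1 d.1.2))
  refine Finset.sum_congr rfl fun T _ => ?_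
  unfold inc
  rw [Finset.sum_mul]
  refine Finset.sum_congr rfl fun t ht => ?_
  by_cases h1 : T.1.erase t = d.1.2.1
  · congr 1
    have h2 : T.1 ⊆ st d.1.1 ↔ t ∈ st d.1.1 := by
      constructor
      · intro h
        exact h ht
      · intro h u hu
        by_cases hut : u = t
        · rw [hut]
          exact h
        · exact d.2 (by rw [← h1]; exact Finset.mem_erase.2 ⟨hut, hu⟩)
    have h3 : T.1 ⊆ st (d.1.1 * gen G t) ↔ t ∉ st d.1.1 := by
      rw [← S.flip d.1.1 t]
      constructor
      · intro h
        exact h ht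
      · intro h u hu
        by_cases hut : u = t
        · rw [hut]
          exact h
        · exact (S.par _ u t (T.2.1 hu ht hut)).2
            (d.2 (by rw [← h1]; exact Finset.mem_erase.2 ⟨hut, hu⟩))
    by_cases h4 : t ∈ st d.1.1
    · rw [if_pos (h2.2 h4), if_neg (fun h => h3.1 h h4), add_zero]
    · rw [if_neg (fun h => h4 (h2.1 h)), if_pos (h3.2 h4), zero_add]
  · rw [if_neg h1, zero_mul, zero_mul]

theorem rst_harm (S : St G K st) (x : lp (fun _ : W G × Cl G i => ℂ) 2) (hx : IsH G i x) :
    (rst x : lp (fun _ : TC G st i => ℂ) 2) ∈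
      Gen.harmonicC (io : TC G st (i + 1) → TC G st i → ℂ)
        (io : TC G st i → TC G st (i - 1) → ℂ) :=
  ⟨fun d => cycle_top S hx d, fun c => cocycle_top S hx c⟩

end rst

end Pool.Agent.W7h60.OM.Racg
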