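import Pool.Agent.W7h60.OM.Racg4

set_option autoImplicit false
set_option linter.unusedSectionVars false

open scoped InnerProductSpace InnerProduct ENNReal

/-! Right-angled Coxeter groups: the inequality for finite index subgroups preserving the states. -/

namespace Pool.Agent.W7h60.OM.Racg

open Classical Pool.Agent.W907.SG
open Pool.Agent.W649.ZL Pool.Agent.W7h60.LP Pool.Agent.W7h60.OM

section trans

variable {V : Type} [Fintype V] [LinearOrder V] {G : SimpleGraph V}

/-- left translations -/
noncomputable def trW (g : W G) (i : ℕ) : W G × Cl G i ≃ W G × Cl G i where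
  toFun p := (g * p.1, p.2)
  invFun p := (g⁻¹ * p.1, p.2)
  left_inv p := by simp
  right_inv p := by simp

theorem image_trW (g : W G) (i : ℕ) : pull (trW g i) '' HarmW G i = HarmW G i := by
  ext x
  constructor
  · rintro ⟨y, hy, rfl⟩
    exact IsH.tr hy g
  · intro hx
    refine ⟨pull (trW g⁻¹ i) x, IsH.tr hx g⁻¹, ?_⟩
    ext p
    rw [pull_apply, pull_apply]
    have e : trW g⁻¹ i (trW g i p) = p := Prod.ext (inv_mul_cancel_left g p.1) rfl
    rw [e]

theorem infDist_trW (g : W G) (i : ℕ) (T : Cl G i) :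
    Metric.infDist (lp.single 2 (g, T) (1 : ℂ) : lp (fun _ : W G × Cl G i => ℂ) 2) (HarmW G i) =
      Metric.infDist (lp.single 2 ((1 : W G), T) (1 : ℂ) : lp (fun _ : W G × Cl G i => ℂ) 2)
        (HarmW G i) := by
  rw [← Metric.infDist_image (isometry_pull (trW g i)), image_trW]
  congr 1
  ext p
  rw [pull_apply]
  by_cases hp : p = ((1 : W G), T)
  · subst hp
    have e : trW g i ((1 : W G), T) = (g, T) := Prod.ext (mul_one g) rfl
    rw [e, lp.single_apply_self, lp.single_apply_self]
  · have hp' : trW g i p ≠ (g, T) := by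
      intro h
      apply hp
      have h1 : g * p.1 = g := congrArg Prod.fst h
      have h2 : p.2 = T := congrArg Prod.snd h
      exact Prod.ext (mul_eq_left.1 h1) h2
    rw [lp.single_apply_ne _ _ _ hp, lp.single_apply_ne _ _ _ hp']

end trans

section dim

variable {V : Type} [Fintype V] [LinearOrder V] {G : SimpleGraph V} {K : Subgroup (W G)}
variable {st : W G → Finset V} [hS : Fact (St G K st)] {R : Finset (W G)}

noncomputable instance (K : Subgroup (W G)) (i : ℕ) : MulAction K (W G × Cl G i) where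
  smul k p := ((k : W G) * p.1, p.2)
  one_smul p := Prod.ext (one_mul p.1) rfl
  mul_smul k l p := Prod.ext (mul_assoc (k : W G) l p.1) rfl

/-- the corner -/
def fs {i : ℕ} (p : W G × Cl G i) : W G := p.1

theorem fibW (i : ℕ) : Gen.Fib K (fs : W G × Cl G i → W G) := by
  refine ⟨fun k c => rfl, fun w => ?_⟩
  have h1 : (Set.univ : Set (Cl G i)).Finite := Set.toFinite _
  have h2 : (({w} : Set (W G)) ×ˢ (Set.univ : Set (Cl G i))).Finite :=
    (Set.finite_singleton w).prod h1
  refine Set.Finite.subset h2 ?_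
  intro c hc
  exact ⟨hc, trivial⟩

variable (hR : Reps K R) (i : ℕ)

/-- coordinates -/
noncomputable def eW : K × Gen.II R (fs : W G × Cl G i → W G) ≃ W G × Cl G i :=
  Gen.eqC (baseZ (st := st) hR) (fibW i)

theorem eW_apply (k : K) (j : Gen.II R (fs : W G × Cl G i → W G)) :
    eW (st := st) hR i (k, j) = (((k⁻¹ : K) : W G) * j.1.1, j.1.2) := rfl

theorem eW_mul (l k : K) (j : Gen.II R (fs : W G × Cl G i → W G)) :
    eW (st := st) hR i (k * l, j) =
      (((l⁻¹ : K) : W G) * (eW (st := st) hR i (k, j)).1, (eW (st := st) hR i (k, j)).2) := by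
  rw [eW_apply, eW_apply, mul_inv_rev, Subgroup.coe_mul, mul_assoc]

theorem continuous_ev {I : Type} (p : K × I) : Continuous fun F : EE K I => F p := by
  have h : (fun F : EE K I => F p) = fun F : EE K I => innerSL ℂ (dl p) F := by
    funext F
    rw [innerSL_apply_apply, inner_dl_left]
  rw [h]
  exact (innerSL ℂ (dl p : EE K I)).continuous

/-- the harmonic chains in coordinates -/
noncomputable def PH : Submodule ℂ (EE K (Gen.II R (fs : W G × Cl G i → W G))) where
  carrier := {F | IsH G i fun p => F ((eW (st := st) hR i).symm p)}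
  add_mem' := by
    intro F F' h h'
    exact IsH.add (x := fun p => F ((eW (st := st) hR i).symm p))
      (y := fun p => F' ((eW (st := st) hR i).symm p)) h h'
  zero_mem' := IsH.zero
  smul_mem' := by
    intro c F h
    exact IsH.smul (x := fun p => F ((eW (st := st) hR i).symm p)) c h

theorem mem_PH (F : EE K (Gen.II R (fs : W G × Cl G i → W G))) :
    F ∈ PH (st := st) hR i ↔ IsH G i fun p => F ((eW (st := st) hR i).symm p) := Iff.rfl

theorem PH_closed : IsClosed (PH (st := st) hR i :
    Set (EE K (Gen.II R (fs : W G × Cl G i → W G)))) :=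
  IsH.closed (fun (F : EE K (Gen.II R (fs : W G × Cl G i → W G))) p =>
    F ((eW (st := st) hR i).symm p)) fun _ => continuous_ev _

theorem PH_inv : W649.ZL.Inv (PH (st := st) hR i) := by
  intro k F hF
  rw [mem_PH] at hF ⊢
  have h1 := IsH.tr hF (((k⁻¹ : K)) : W G)
  have h2 : (fun p => (tr k F) ((eW (st := st) hR i).symm p)) = fun p : W G × Cl G i =>
      F ((eW (st := st) hR i).symm (((k⁻¹ : K) : W G) * p.1, p.2)) := by
    funext p
    obtain ⟨⟨u, j⟩, rfl⟩ := (eW (st := st) hR i).surjective p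
    rw [Equiv.symm_apply_apply, ← eW_mul, Equiv.symm_apply_apply]
    rfl
  rw [h2]
  exact h1

theorem image_HarmW : pull (eW (st := st) hR i) '' HarmW G i =
    (PH (st := st) hR i : Set (EE K (Gen.II R (fs : W G × Cl G i → W G)))) := by
  ext F
  constructor
  · rintro ⟨x, hx, rfl⟩
    have h : (fun p => (pull (eW (st := st) hR i) x) ((eW (st := st) hR i).symm p)) =
        fun p => x p := by
      funext p
      rw [pull_apply, Equiv.apply_symm_apply]
    change IsH G i fun p => (pull (eW (st := st) hR i) x) ((eW (st := st) hR i).symm p)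
    rw [h]
    exact hx
  · intro hF
    refine ⟨pull (eW (st := st) hR i).symm F, hF, ?_⟩
    ext p
    rw [pull_apply, pull_apply, Equiv.symm_apply_apply]

variable [Fintype (Gen.II R (fs : W G × Cl G i → W G))]
variable [Fintype (Gen.II R (top : TC G st i → W G))]

/-- restriction to the top corners in coordinates -/
noncomputable def Psi : EE K (Gen.II R (fs : W G × Cl G i → W G)) →L[ℂ]
    EE K (Gen.II R (top : TC G st i → W G)) :=
  op (cm fun j c => if j.1 = c.1.1 then 1 else 0)

theorem Psi_apply (F : EE K (Gen.II R (fs : W G × Cl G i → W G))) (u : K)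
    (c : Gen.II R (top : TC G st i → W G)) :
    Psi (st := st) i F (u, c) = F (u, ⟨c.1.1, c.2⟩) := by
  unfold Psi
  rw [op_cm, Finset.sum_eq_single (⟨c.1.1, c.2⟩ : Gen.II R (fs : W G × Cl G i → W G))]
  · rw [if_pos rfl, one_mul]
  · intro j _ hj
    rw [if_neg (fun h => hj (Subtype.ext h)), zero_mul]
  · intro h
    exact absurd (Finset.mem_univ _) h

theorem Psi_pull (x : lp (fun _ : W G × Cl G i => ℂ) 2) :
    Psi (st := st) i (pull (eW (st := st) hR i) x) =
      pull (Gen.eqC (baseZ (st := st) hR) (fibZ i)) (rst x) := by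
  ext ⟨u, c⟩
  rw [Psi_apply]
  rfl

theorem PH_ker : PH (st := st) hR i ⊓ LinearMap.ker ((Psi (st := st) i :
    EE K (Gen.II R (fs : W G × Cl G i → W G)) →L[ℂ] EE K (Gen.II R (top : TC G st i → W G))) :
    EE K (Gen.II R (fs : W G × Cl G i → W G)) →ₗ[ℂ]
      EE K (Gen.II R (top : TC G st i → W G))) = ⊥ := by
  rw [eq_bot_iff]
  rintro F ⟨hF, hF0⟩
  rw [← image_HarmW] at hF
  obtain ⟨x, hx, rfl⟩ := hF
  have h1 : Psi (st := st) i (pull (eW (st := st) hR i) x) = 0 := hF0
  rw [Psi_pull] at h1
  have h2 : ∀ c : TC G st i, x c.1 = 0 := by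
    intro c
    obtain ⟨p, rfl⟩ := (Gen.eqC (baseZ (st := st) hR) (fibZ (G := G) i)).surjective c
    have h3 := congrArg (fun f : EE K (Gen.II R (top : TC G st i → W G)) => f p) h1
    exact h3
  have h4 : ∀ w (T : Cl G i), x (w, T) = 0 :=
    IsH.eq_zero hS.out hx fun w T hT => h2 ⟨(w, T), hT⟩
  rw [Submodule.mem_bot]
  ext p
  rw [pull_apply]
  exact h4 _ _

theorem vd_PH_le [Fintype (Gen.II R (top : TC G st (i + 1) → W G))]
    [Fintype (Gen.II R (top : TC G st (i - 1) → W G))] :
    vd (PH (st := st) hR i) ≤ ∑ w : R, (rb G (st (w : W G)) i : ℝ) := by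
  have h1 := rank_nullity (Psi (st := st) i) (op_eqv _) (PH_inv (st := st) hR i)
    (PH_closed (st := st) hR i)
  rw [PH_ker, vd_bot, zero_add] at h1
  rw [h1]
  refine le_trans (vd_mono ?_) (vd_top_le hR i)
  rintro _ ⟨F, hF, rfl⟩
  rw [← image_HarmW] at hF
  obtain ⟨x, hx, rfl⟩ := hF
  change Psi (st := st) i (pull (eW (st := st) hR i) x) ∈ _
  rw [Psi_pull]
  exact (Gen.pull_harmonicC (baseZ (st := st) hR) (fibZ (i + 1)) (fibZ i) (fibZ (i - 1))
    (incZ (i + 1) i) (incZ i (i - 1)) (rst x)).1 (rst_harm hS.out x hx)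

theorem vd_PH_eq : vd (PH (st := st) hR i) = R.card * b2 G i := by
  rw [vd_eq_infDist _ (PH_closed (st := st) hR i)]
  have h1 : ∀ j : Gen.II R (fs : W G × Cl G i → W G),
      Metric.infDist (dl ((1 : K), j)) (PH (st := st) hR i :
        Set (EE K (Gen.II R (fs : W G × Cl G i → W G)))) =
      Metric.infDist (lp.single 2 ((1 : W G), j.1.2) (1 : ℂ) :
        lp (fun _ : W G × Cl G i => ℂ) 2) (HarmW G i) := by
    intro j
    rw [← infDist_trW j.1.1 i j.1.2, ← image_HarmW,
      ← Metric.infDist_image (isometry_pull (eW (st := st) hR i))]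
    congr 1
    ext p
    rw [pull_apply]
    have e : eW (st := st) hR i ((1 : K), j) = (j.1.1, j.1.2) := by
      rw [eW_apply, inv_one, Subgroup.coe_one, one_mul]
    by_cases hp : p = ((1 : K), j)
    · subst hp
      rw [e, lp.single_apply_self, dl_apply_self]
    · have hp' : eW (st := st) hR i p ≠ (j.1.1, j.1.2) := by
        rw [← e]
        exact fun h => hp ((eW (st := st) hR i).injective h)
      rw [lp.single_apply_ne _ _ _ hp', dl_apply_ne _ _ hp]
  simp only [h1]
  let e2 : Gen.II R (fs : W G × Cl G i → W G) ≃ R × Cl G i :=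
    { toFun := fun j => (⟨j.1.1, j.2⟩, j.1.2)
      invFun := fun q => ⟨(q.1.1, q.2), q.1.2⟩
      left_inv := fun j => rfl
      right_inv := fun q => rfl }
  refine (Fintype.sum_equiv e2 _ (fun q : R × Cl G i =>
    1 - Metric.infDist (lp.single 2 ((1 : W G), q.2) (1 : ℂ) :
        lp (fun _ : W G × Cl G i => ℂ) 2) (HarmW G i) ^ 2) (fun j => rfl)).trans ?_
  rw [Fintype.sum_prod_type]
  change ∑ _x : R, b2 G i = _
  rw [Finset.sum_const, Finset.card_univ, Fintype.card_coe, nsmul_eq_mul]

omit [Fintype (Gen.II R (fs : W G × Cl G i → W G))]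
  [Fintype (Gen.II R (top : TC G st i → W G))] in
include hS hR in
/-- **The inequality for a subgroup preserving the states.** -/
theorem main : (R.card : ℝ) * b2 G i ≤ ∑ w ∈ R, (rb G (st w) i : ℝ) := by
  have f0 : Fintype (Gen.II R (fs : W G × Cl G i → W G)) :=
    @Fintype.ofFinite _ (Gen.II_finite (fibW (K := K) i) R)
  have f1 : Fintype (Gen.II R (top : TC G st i → W G)) :=
    @Fintype.ofFinite _ (Gen.II_finite (fibZ (K := K) i) R)
  have f2 : Fintype (Gen.II R (top : TC G st (i + 1) → W G)) :=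
    @Fintype.ofFinite _ (Gen.II_finite (fibZ (K := K) (i + 1)) R)
  have f3 : Fintype (Gen.II R (top : TC G st (i - 1) → W G)) :=
    @Fintype.ofFinite _ (Gen.II_finite (fibZ (K := K) (i - 1)) R)
  have h1 := vd_PH_le (st := st) hR i
  rw [vd_PH_eq, Finset.sum_coe_sort R (fun w => (rb G (st w) i : ℝ))] at h1
  exact h1

end dim

end Pool.Agent.W7h60.OM.Racg
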