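import Pool.Agent.W7h60.OM.Racg5

set_option autoImplicit false
set_option linter.unusedSectionVars false

/-! Right-angled Coxeter groups: finite systems of states. -/

namespace Pool.Agent.W7h60.OM.Racg

open Classical Pool.Agent.W907.SG

/-- A finite system of states: a set `X` with commuting involutions and the descending directions. -/
structure Sys {V : Type} (G : SimpleGraph V) (X : Type) where
  a : V → X → X
  D : X → Finset V
  invol : ∀ v x, a v (a v x) = x
  comm : ∀ u v, G.Adj u v → ∀ x, a u (a v x) = a v (a u x)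
  flip : ∀ v x, v ∈ D (a v x) ↔ v ∉ D x
  par : ∀ u v, G.Adj u v → ∀ x, u ∈ D (a v x) ↔ u ∈ D x

section sys

variable {V : Type} {G : SimpleGraph V} {X : Type} (P : Sys G X)

/-- the action of the group -/
noncomputable def Sys.rho : W G →* Function.End X :=
  rep P.a (fun v => funext (P.invol v)) (fun u v h => funext (P.comm u v h))

theorem Sys.rho_gen (v : V) : P.rho (gen G v) = P.a v := rep_gen _ _ _ v

theorem Sys.rho_mul (g h : W G) (x : X) : P.rho (g * h) x = P.rho g (P.rho h x) := by
  rw [map_mul]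
  rfl

theorem Sys.rho_one (x : X) : P.rho 1 x = x := by
  rw [map_one]
  rfl

/-- the stabiliser of a point -/
noncomputable def Sys.stab (x : X) : Subgroup (W G) where
  carrier := {g | P.rho g x = x}
  mul_mem' := by
    intro g h hg hh
    change P.rho (g * h) x = x
    rw [P.rho_mul, hh, hg]
  one_mem' := P.rho_one x
  inv_mem' := by
    intro g hg
    change P.rho g⁻¹ x = x
    have h1 : P.rho g⁻¹ (P.rho g x) = x := by
      rw [← P.rho_mul, inv_mul_cancel, P.rho_one]
    have h2 : P.rho g x = x := hg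
    rw [h2] at h1
    exact h1

/-- the states of the vertices of the Davis complex -/
noncomputable def Sys.st (x : X) (w : W G) : Finset V := P.D (P.rho w⁻¹ x)

theorem Sys.states (x : X) : St G (P.stab x) (P.st x) := by
  refine ⟨?_, ?_, ?_⟩
  · intro w v
    unfold Sys.st
    rw [mul_inv_rev, P.rho_mul, gen_inv, P.rho_gen]
    exact P.flip v _
  · intro w u v h
    unfold Sys.st
    rw [mul_inv_rev, P.rho_mul, gen_inv, P.rho_gen]
    exact P.par u v h _
  · intro k hk w
    unfold Sys.st
    rw [mul_inv_rev, P.rho_mul]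
    have h2 : P.rho k⁻¹ x = x := (P.stab x).inv_mem hk
    rw [h2]

/-- the orbit equivalence relation -/
noncomputable def Sys.setoid : Setoid X where
  r x y := ∃ g : W G, P.rho g x = y
  iseqv := by
    refine ⟨fun x => ⟨1, P.rho_one x⟩, ?_, ?_⟩
    · rintro x y ⟨g, rfl⟩
      refine ⟨g⁻¹, ?_⟩
      rw [← P.rho_mul, inv_mul_cancel, P.rho_one]
    · rintro x y z ⟨g, rfl⟩ ⟨h, rfl⟩
      exact ⟨h * g, P.rho_mul _ _ _⟩

variable [Fintype V] [LinearOrder V] [Fintype X]

/-- the inequality for an orbit -/
theorem Sys.orbit (x : X) (i : ℕ) :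
    0 ≤ ∑ y ∈ Finset.univ.filter (fun y => P.setoid x y), ((rb G (P.D y) i : ℝ) - b2 G i) := by
  have h1 : ∀ y : {y : X // P.setoid x y}, ∃ w : W G, P.rho w⁻¹ x = y.1 := by
    rintro ⟨y, g, hg⟩
    exact ⟨g⁻¹, by rw [inv_inv]; exact hg⟩
  choose f hf using h1
  have hinj : Function.Injective f := by
    intro y z h
    apply Subtype.ext
    rw [← hf y, ← hf z, h]
  set R : Finset (W G) := Finset.univ.image f with hR
  have hreps : Reps (P.stab x) R := by
    refine ⟨?_, ?_⟩
    · intro w
      refine ⟨f ⟨P.rho w⁻¹ x, ⟨w⁻¹, rfl⟩⟩, Finset.mem_image_of_mem _ (Finset.mem_univ _),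
        w * (f ⟨P.rho w⁻¹ x, ⟨w⁻¹, rfl⟩⟩)⁻¹, ?_, ?_⟩
      · change P.rho (w * _) x = x
        rw [P.rho_mul, hf, ← P.rho_mul, mul_inv_cancel, P.rho_one]
      · rw [inv_mul_cancel_right]
    · intro r hr r' hr' k hk h
      rw [hR, Finset.mem_image] at hr hr'
      obtain ⟨y, _, rfl⟩ := hr
      obtain ⟨z, _, rfl⟩ := hr'
      congr 1
      apply Subtype.ext
      rw [← hf y, ← hf z, ← h, mul_inv_rev, P.rho_mul]
      have h2 : P.rho k⁻¹ x = x := (P.stab x).inv_mem hk
      rw [h2]
  have hfact : Fact (St G (P.stab x) (P.st x)) := ⟨P.states x⟩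
  have key := main (st := P.st x) hreps i
  have h2 : R.card = (Finset.univ.filter (fun y => P.setoid x y)).card := by
    rw [hR, Finset.card_image_of_injective _ hinj, Finset.card_univ, Fintype.card_subtype]
  have h3 : ∑ w ∈ R, (rb G (P.st x w) i : ℝ) =
      ∑ y ∈ Finset.univ.filter (fun y => P.setoid x y), (rb G (P.D y) i : ℝ) := by
    rw [hR, Finset.sum_image (fun y _ z _ h => hinj h)]
    unfold Sys.st
    simp only [hf]
    exact (Finset.sum_subtype _ (fun y => by simp) (fun y => (rb G (P.D y) i : ℝ))).symm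
  rw [h3, h2] at key
  rw [Finset.sum_sub_distrib, Finset.sum_const, nsmul_eq_mul]
  linarith

/-- **The inequality for finite systems of states.** -/
theorem Sys.main (i : ℕ) :
    (Fintype.card X : ℝ) * b2 G i ≤ ∑ x : X, (rb G (P.D x) i : ℝ) := by
  have h1 : 0 ≤ ∑ x : X, ((rb G (P.D x) i : ℝ) - b2 G i) := by
    rw [Finset.sum_partition P.setoid]
    apply Finset.sum_nonneg
    intro q hq
    rw [Finset.mem_image] at hq
    obtain ⟨x, _, rfl⟩ := hq
    have h2 := P.orbit x i
    refine h2.trans (le_of_eq ?_)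
    refine Finset.sum_congr ?_ fun _ _ => rfl
    ext y
    simp only [Finset.mem_filter, Finset.mem_univ, true_and]
    constructor
    · intro h
      exact Quotient.sound (P.setoid.symm h)
    · intro h
      exact P.setoid.symm (Quotient.exact h)
  rw [Finset.sum_sub_distrib, Finset.sum_const, Finset.card_univ, nsmul_eq_mul] at h1
  linarith

end sys

end Pool.Agent.W7h60.OM.Racg
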