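import Pool.Agent.W7h60.OM.Comb

set_option autoImplicit false
set_option linter.unusedSectionVars false

/-! Highest vertices and representatives of the orbits of simplices. -/

namespace Pool.Agent.W7h60.OM

open Classical

section act

variable {G V : Type} [Group G] [MulAction G V]

theorem mem_act {g : G} {s : Finset V} {v : V} : v ∈ act g s ↔ g⁻¹ • v ∈ s := by
  unfold act
  rw [Finset.mem_image]
  constructor
  · rintro ⟨u, hu, rfl⟩
    rwa [inv_smul_smul]
  · intro hv
    exact ⟨_, hv, smul_inv_smul g v⟩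

theorem smul_mem_act {g : G} {s : Finset V} {v : V} : g • v ∈ act g s ↔ v ∈ s := by
  rw [mem_act, inv_smul_smul]

theorem act_one (s : Finset V) : act (1 : G) s = s := by
  ext v
  rw [mem_act, inv_one, one_smul]

theorem act_act (g g' : G) (s : Finset V) : act g (act g' s) = act (g * g') s := by
  ext v
  rw [mem_act, mem_act, mem_act, mul_inv_rev, mul_smul]

theorem act_inj {g : G} {s t : Finset V} (h : act g s = act g t) : s = t := by
  have h1 := congrArg (act g⁻¹) h
  rwa [act_act, act_act, inv_mul_cancel, act_one, act_one] at h1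

theorem card_act (g : G) (s : Finset V) : (act g s).card = s.card := by
  unfold act
  exact Finset.card_image_of_injective _ (MulAction.injective g)

theorem act_erase (g : G) (s : Finset V) (w : V) : (act g s).erase (g • w) = act g (s.erase w) := by
  ext v
  rw [Finset.mem_erase, mem_act, mem_act, Finset.mem_erase]
  have : v ≠ g • w ↔ g⁻¹ • v ≠ w := by
    rw [not_iff_not, inv_smul_eq_iff]
  rw [this]

end act

section top

variable {G V Ω : Type} [Group G] [MulAction G V] [LinearOrder Ω] [MulAction G Ω]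
variable {X : Complex V} {h : V → Ω} {R : Finset V}

theorem Heights.lt (H : Heights G X h R) (g : G) {a b : Ω} : g • a < g • b ↔ a < b := by
  constructor
  · intro hlt
    by_contra hc
    exact absurd hlt (not_lt.2 (H.order g b a (not_lt.1 hc)))
  · intro hlt
    refine lt_of_le_of_ne (H.order g a b hlt.le) fun he => hlt.ne ?_
    exact smul_left_cancel g he

theorem Heights.le (H : Heights G X h R) (g : G) {a b : Ω} : g • a ≤ g • b ↔ a ≤ b := by
  rw [← not_lt, ← not_lt, H.lt]

theorem incid_act (H : Heights G X h R) (g : G) (s t : Finset V) :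
    incid h (act g s) (act g t) = incid h s t := by
  unfold incid
  have e0 : (act g s) = s.image fun v => g • v := rfl
  conv_lhs => rw [e0]
  rw [Finset.sum_image (fun a _ b _ hab => smul_left_cancel g hab)]
  refine Finset.sum_congr rfl fun w _ => ?_
  rw [← e0, act_erase]
  have e1 : (act g (s.erase w) = act g t) ↔ s.erase w = t :=
    ⟨fun h1 => act_inj h1, fun h1 => by rw [h1]⟩
  have e2 : ((act g s).filter fun u => h (g • w) < h u) =
      act g (s.filter fun u => h w < h u) := by
    ext v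
    rw [Finset.mem_filter, mem_act, mem_act, Finset.mem_filter]
    have : h (g • w) < h v ↔ h w < h (g⁻¹ • v) := by
      rw [← H.lt g (a := h w), ← H.equivariant, ← H.equivariant, smul_inv_smul]
    rw [this]
  rw [e2, card_act]
  by_cases hc : s.erase w = t
  · rw [if_pos hc, if_pos (e1.2 hc)]
  · rw [if_neg hc, if_neg (fun h1 => hc (e1.1 h1))]

/-- the highest vertex -/
def IsTop (h : V → Ω) (s : Finset V) (v : V) : Prop := v ∈ s ∧ ∀ u ∈ s, h u ≤ h v

theorem exists_isTop (s : Finset V) (hs : s.Nonempty) : ∃ v, IsTop h s v := by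
  obtain ⟨v, hv, h1⟩ := s.exists_max_image h hs
  exact ⟨v, hv, h1⟩

theorem IsTop.unique (H : Heights G X h R) {s : Finset V} (hs : s ∈ X.faces) {v w : V}
    (hv : IsTop h s v) (hw : IsTop h s w) : v = w :=
  H.generic s hs v hv.1 w hw.1 (le_antisymm (hw.2 v hv.1) (hv.2 w hw.1))

theorem IsTop.act (H : Heights G X h R) {s : Finset V} {v : V} (hv : IsTop h s v) (g : G) :
    IsTop h (act g s) (g • v) := by
  refine ⟨smul_mem_act.2 hv.1, fun u hu => ?_⟩
  rw [mem_act] at hu
  have h1 := hv.2 _ hu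
  rw [← H.le g, ← H.equivariant, ← H.equivariant, smul_inv_smul] at h1
  exact h1

theorem IsTop.sub {s t : Finset V} {v : V} (hv : IsTop h s v) (hts : t ⊆ s)
    (hvt : v ∈ t) : IsTop h t v := ⟨hvt, fun u hu => hv.2 u (hts hu)⟩

/-- the representatives of the orbits of the simplices with `a` vertices -/
abbrev KK (X : Complex V) (h : V → Ω) (R : Finset V) (a : ℕ) : Type :=
  {s : Finset V // s ∈ X.faces ∧ s.card = a ∧ ∃ v ∈ R, IsTop h s v}

theorem KK_finite (H : Heights G X h R) (a : ℕ) : Finite (KK X h R a) := by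
  have h1 : (⋃ v ∈ R, {s | s ∈ X.faces ∧ v ∈ s}).Finite :=
    Set.Finite.biUnion (Finset.finite_toSet R) fun v _ => H.star v
  refine Set.Finite.to_subtype (h1.subset ?_)
  rintro s ⟨hs, _, v, hv, ht⟩
  rw [Set.mem_iUnion₂]
  exact ⟨v, hv, hs, ht.1⟩

/-- the highest vertex of a representative -/
noncomputable def tp {a : ℕ} (s : KK X h R a) : R := ⟨s.2.2.2.choose, s.2.2.2.choose_spec.1⟩

theorem tp_top {a : ℕ} (s : KK X h R a) : IsTop h s.1 (tp s : V) := s.2.2.2.choose_spec.2

theorem rep_unique (H : Heights G X h R) {a b : ℕ} {s : KK X h R a} {t : KK X h R b} {g : G}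
    (h1 : IsTop h s.1 (g • (tp t : V))) : g = 1 ∧ tp s = tp t := by
  have h2 := (tp_top s).unique H s.2.1 h1
  have h3 := H.unique _ (tp t).2 _ (tp s).2 g h2.symm
  refine ⟨H.free g (tp t : V) ?_, Subtype.ext h3.symm⟩
  rw [← h2, ← h3]

theorem exists_rep (H : Heights G X h R) {s : Finset V} (hs : s ∈ X.faces) :
    ∃ (x : G) (k : KK X h R s.card), act x⁻¹ k.1 = s := by
  obtain ⟨v, hv⟩ := exists_isTop (h := h) s (X.nonempty s hs)
  obtain ⟨r, hr, g, hg⟩ := H.cover v
  have h1 := hv.act H g⁻¹
  rw [← hg, inv_smul_smul] at h1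
  refine ⟨g⁻¹, ⟨act g⁻¹ s, H.inv _ s hs, card_act _ _, r, hr, h1⟩, ?_⟩
  change act g⁻¹⁻¹ (act g⁻¹ s) = s
  rw [inv_inv, act_act, mul_inv_cancel, act_one]

theorem rep_inj (H : Heights G X h R) {a : ℕ} {x y : G} {s t : KK X h R a}
    (he : act x⁻¹ s.1 = act y⁻¹ t.1) : x = y ∧ s = t := by
  have h1 : s.1 = act (x * y⁻¹) t.1 := by
    rw [← act_act, ← he, act_act, mul_inv_cancel, act_one]
  have h2 : IsTop h s.1 ((x * y⁻¹) • (tp t : V)) := by
    rw [h1]
    exact (tp_top t).act H _
  obtain ⟨h3, _⟩ := rep_unique H h2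
  refine ⟨mul_inv_eq_one.1 h3, Subtype.ext ?_⟩
  rw [h1, h3, act_one]

/-- the simplices of dimension `k` are the translates of the representatives -/
noncomputable def cellEquiv (H : Heights G X h R) (k : ℕ) : G × KK X h R (k + 1) ≃ Cell X k :=
  Equiv.ofBijective (fun p => ⟨act p.1⁻¹ p.2.1, H.inv _ _ p.2.2.1, by
    rw [card_act]; exact p.2.2.2.1⟩) (by
    constructor
    · rintro ⟨x, s⟩ ⟨y, t⟩ he
      obtain ⟨h1, h2⟩ := rep_inj H (congrArg Subtype.val he)
      exact Prod.ext h1 h2
    · rintro ⟨s, hs, hc⟩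
      obtain ⟨x, ⟨k, hk1, hk2, hk3⟩, hxk⟩ := exists_rep H hs
      exact ⟨(x, ⟨k, hk1, hk2.trans hc, hk3⟩), Subtype.ext hxk⟩)

theorem cellEquiv_apply (H : Heights G X h R) (k : ℕ) (x : G) (s : KK X h R (k + 1)) :
    (cellEquiv H k (x, s)).1 = act x⁻¹ s.1 := rfl

/-- finitely many translates of a simplex are contained in another one -/
theorem fin_translates (H : Heights G X h R) (s t : Finset V) (ht : t.Nonempty) :
    {g : G | act g t ⊆ s}.Finite := by
  obtain ⟨v, hv⟩ := ht
  refine Set.Finite.of_finite_image (f := fun g : G => g • v)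
    ((Finset.finite_toSet s).subset ?_) ?_
  · rintro _ ⟨g, hg, rfl⟩
    exact hg (smul_mem_act.2 hv)
  · intro g _ g' _ he
    have h1 : (g'⁻¹ * g) • v = v := by
      have he' : g • v = g' • v := he
      rw [mul_smul, he', inv_smul_smul]
    have h2 := H.free _ v h1
    exact (inv_mul_eq_one.1 h2).symm

end top

end Pool.Agent.W7h60.OM
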